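import Mathlib
import Pool.Agent.W504.YW.W7

/-!
# The limits, for functions which can be approximated
-/

open Pool.Agent.H906R3.YM Filter Topology Set

namespace Pool.Agent.W504.YM

noncomputable section

variable {A : Type*} [CommRing A] [Algebra ℝ A] {J X : Type*} [Fintype J] [DecidableEq J]
    [TopologicalSpace X]

namespace Geo

variable {S : Geo A J X} {w : J → ℝ}

/-- the iterates -/
def Itr (S : Geo A J X) (V : A) (τ : ℝ) (k : ℕ) : A := (S.St (1 - τ • V) τ)^[k] 1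

/-- approximation, with the bound for the gradient -/
def Apx (S : Geo A J X) (w : J → ℝ) : Prop := ∀ u C, (∀ x, S.ev x (S.Gw w u) ≤ C) → ∀ δ, 0 < δ →
  ∃ F, S.Rep F ∧ (∀ x, |S.ev x F - S.ev x u| ≤ δ) ∧ ∀ x, S.ev x (S.Gw w F) ≤ C

/-- approximation, with the energy -/
def ApxE (S : Geo A J X) : Prop := ∀ u δ, 0 < δ →
  ∃ F, S.Rep F ∧ (∀ x, |S.ev x F - S.ev x u| ≤ δ) ∧ S.I (S.G2 F) ≤ S.I (S.G2 u)

lemma one_rep {V : A} (hV : S.Rep V) (τ : ℝ) : S.Rep (1 - τ • V) := by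
  rw [sub_eq_add_neg, ← neg_smul]
  exact Rep.one.add (hV.smul _)

lemma Itr_rep {V : A} (hV : S.Rep V) (τ : ℝ) (k : ℕ) : S.Rep (S.Itr V τ k) :=
  It_rep (one_rep hV τ) Rep.one τ k

lemma pos_ev [CompactSpace X] {V : A} (hV : S.Rep V) :
    ∀ᶠ τ in 𝓝[>] (0 : ℝ), ∀ k x, 0 < S.ev x (S.Itr V τ k) := by
  obtain ⟨Vm, hVm0, hVm⟩ := exists_bound (S := S) V
  have c1 := small (f := fun τ => 1 - τ * Vm) (by fun_prop) (by norm_num)
  have c8 : ∀ᶠ τ in 𝓝[>] (0 : ℝ), 0 < τ := self_mem_nhdsWithin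
  filter_upwards [c1, c8] with τ c1 c8 k
  refine pos_it (one_rep hV τ) (fun x => ?_) Rep.one
    (fun x => by rw [map_one]; exact one_pos) c8.le k
  rw [map_sub, map_one, map_smul, smul_eq_mul]
  have := mul_le_mul_of_nonneg_left ((le_abs_self _).trans (hVm x)) c8.le
  linarith

lemma avg_near [CompactSpace X] [Nonempty X] {ψ : A} (hψ : ∀ x, 0 < S.ev x ψ) {F F' : A} {δ : ℝ}
    (h : ∀ x, |S.ev x F' - S.ev x F| ≤ δ) : |S.avg 1 ψ F' - S.avg 1 ψ F| ≤ δ := by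
  have hI : 0 < S.I (ψ * ψ) := I_pos fun x => by rw [map_mul]; exact mul_pos (hψ x) (hψ x)
  have e : S.avg 1 ψ F' - S.avg 1 ψ F = S.I ((F' - F) * (ψ * ψ)) / S.I (ψ * ψ) := by
    unfold avg
    rw [one_mul, one_mul, one_mul, sub_mul, map_sub, sub_div]
  have hsq : ∀ x, 0 ≤ S.ev x (ψ * ψ) := fun x => by rw [map_mul]; exact mul_self_nonneg _
  rw [e, abs_div, abs_of_pos hI, div_le_iff₀ hI, abs_le]
  constructor
  · have := S.I_mono (f := (-δ) • (ψ * ψ)) (g := (F' - F) * (ψ * ψ)) fun x => by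
      rw [map_smul, smul_eq_mul, map_mul (S.ev x) (F' - F), map_sub]
      exact mul_le_mul_of_nonneg_right (abs_le.1 (h x)).1 (hsq x)
    rw [map_smul, smul_eq_mul] at this
    linarith
  · have := S.I_mono (f := (F' - F) * (ψ * ψ)) (g := δ • (ψ * ψ)) fun x => by
      rw [map_smul, smul_eq_mul, map_mul (S.ev x) (F' - F), map_sub]
      exact mul_le_mul_of_nonneg_right (abs_le.1 (h x)).2 (hsq x)
    rw [map_smul, smul_eq_mul] at this
    linarith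

lemma avg_bd [CompactSpace X] [Nonempty X] {ψ : A} (hψ : ∀ x, 0 < S.ev x ψ) {F : A} {M : ℝ}
    (h : ∀ x, |S.ev x F| ≤ M) : |S.avg 1 ψ F| ≤ M := by
  have h1 := avg_near hψ (F := (0 : A)) (F' := F) (δ := M) fun x => by
    rw [map_zero, sub_zero]; exact h x
  have h2 : S.avg 1 ψ (0 : A) = 0 := by
    unfold avg
    rw [zero_mul, mul_zero, map_zero, zero_div]
  rwa [h2, sub_zero] at h1

/-- comparison of the expectations of two systems -/
theorem cmp_ev' [CompactSpace X] [Nonempty X] (hlog : S.HasLog) (hw : S.Wt w) {V V' : A}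
    (hV : S.Rep V) (hV0 : ∀ x, 0 ≤ S.ev x V) (hV' : S.Rep V') (hV0' : ∀ x, 0 ≤ S.ev x V')
    {B : ℝ} (hB0 : 0 ≤ B) (hB : S.HB w B V) (hB' : S.HB w B V')
    (hBi : S.HB (fun j => (w j)⁻¹) B V') {Y κ : ℝ} (hY : 0 < Y)
    (hYB : 2 * Y ^ 2 - S.K * Y + B < 0) (hκ0 : 0 < κ) (hκ : κ < S.K - 2 * Y)
    {Lo : ℝ} (osc : S.Osc (fun j => (w j)⁻¹) Lo) (ap : S.Apx fun j => (w j)⁻¹)
    {α : ℝ} (hα0 : 0 ≤ α) (hG : ∀ x, S.ev x (S.Gw w (V - V')) ≤ α ^ 2) {F : A} {c : ℝ}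
    (hc : 0 ≤ c) (hFc : ∀ x, S.ev x (S.Gw (fun j => (w j)⁻¹) F) ≤ c ^ 2) {ε : ℝ} (hε : 0 < ε) :
    ∀ᶠ τ in 𝓝[>] (0 : ℝ), ∀ᶠ k in atTop,
      |S.avg 1 (S.Itr V τ k) F - S.avg 1 (S.Itr V' τ k) F| ≤ 2 * α * c / κ ^ 2 + ε := by
  obtain ⟨F1, h1, h2, h3⟩ := ap F (c ^ 2) hFc (ε / 8) (by positivity)
  have s1 := small (f := fun t => (2 * α * c / κ ^ 2 + ε / 8) - 2 * α * (c + t) / κ ^ 2)
    (by fun_prop) (by simp only [add_zero]; linarith)
  have s2 : ∀ᶠ t in 𝓝[>] (0 : ℝ), 0 < t := self_mem_nhdsWithin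
  obtain ⟨t, s1, s2⟩ := (s1.and s2).exists
  have g1 := cmp_ev hlog hw hV hV0 hV' hV0' hB0 hB hB' hBi hY hYB hκ0 hκ osc hα0 hG h1
    (c := c + t) (by linarith) (fun x => (h3 x).trans_lt (by nlinarith)) (ε := ε / 8)
    (by positivity)
  have g2 := avg_one_ev (S := S) hV0 F1 (ε := ε / 8) (by positivity)
  have g2' := avg_one_ev (S := S) hV0' F1 (ε := ε / 8) (by positivity)
  filter_upwards [g1, g2, g2', pos_ev hV, pos_ev hV'] with τ g1 g2 g2' p p'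
  filter_upwards [g1] with k g1
  have e1 := abs_le.1 (g2 _ (p k))
  have e2 := abs_le.1 (g2' _ (p' k))
  have e3 := abs_le.1 (avg_near (p k) h2)
  have e4 := abs_le.1 (avg_near (p' k) h2)
  have e5 := abs_le.1 g1
  change _ ∧ S.avg (1 - τ • V) (S.Itr V τ k) F1 - S.avg (1 - τ • V') (S.Itr V' τ k) F1 ≤ _ at e5
  have e6 := e5.1
  change _ ≤ S.avg (1 - τ • V) (S.Itr V τ k) F1 - S.avg (1 - τ • V') (S.Itr V' τ k) F1 at e6
  rw [abs_le]
  constructor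
  · linarith [e1.1, e1.2, e2.1, e2.2, e3.1, e3.2, e4.1, e4.2, e6]
  · linarith [e1.1, e1.2, e2.1, e2.2, e3.1, e3.2, e4.1, e4.2, e5.2]

lemma prod_near {a b a' b' d e M : ℝ} (ha : |a - a'| ≤ d) (hb : |b - b'| ≤ e) (hM : |a'| ≤ M)
    (hM' : |b| ≤ M) : |a * b - a' * b'| ≤ d * M + M * e := by
  have h1 : a * b - a' * b' = (a - a') * b + a' * (b - b') := by ring
  rw [h1]
  refine (abs_add_le _ _).trans ?_
  rw [abs_mul, abs_mul]
  have hd : 0 ≤ d := (abs_nonneg _).trans ha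
  have hM0 : 0 ≤ M := (abs_nonneg _).trans hM
  exact add_le_add (mul_le_mul ha hM' (abs_nonneg _) hd) (mul_le_mul hM hb (abs_nonneg _) hM0)

/-- covariances -/
theorem cov_ev' [CompactSpace X] [Nonempty X] (hlog : S.HasLog) (hw : S.Wt w) {V : A}
    (hV : S.Rep V) (hV0 : ∀ x, 0 ≤ S.ev x V)
    {B : ℝ} (hB0 : 0 ≤ B) (hB : S.HB w B V)
    (hBi : S.HB (fun j => (w j)⁻¹) B V) {Y κ : ℝ} (hY : 0 < Y)
    (hYB : 2 * Y ^ 2 - S.K * Y + B < 0) (hκ0 : 0 < κ) (hκ : κ < S.K - 2 * Y)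
    {Lo : ℝ} (osc : S.Osc (fun j => (w j)⁻¹) Lo) (ap : S.Apx fun j => (w j)⁻¹) (ap' : S.Apx w)
    {F F' : A} {c c' : ℝ} (hc : 0 ≤ c) (hc' : 0 ≤ c')
    (hFc : ∀ x, S.ev x (S.Gw (fun j => (w j)⁻¹) F) ≤ c ^ 2)
    (hFc' : ∀ x, S.ev x (S.Gw w F') ≤ c' ^ 2) {ε : ℝ} (hε : 0 < ε) :
    ∀ᶠ τ in 𝓝[>] (0 : ℝ), ∀ᶠ k in atTop,
      |S.avg 1 (S.Itr V τ k) (F * F') - S.avg 1 (S.Itr V τ k) F * S.avg 1 (S.Itr V τ k) F'| ≤
        c * c' / κ + ε := by
  obtain ⟨M0, hM00, hM0⟩ := exists_bound (S := S) F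
  obtain ⟨M1, hM10, hM1⟩ := exists_bound (S := S) F'
  obtain ⟨M, hM⟩ : ∃ M, M = M0 + M1 + 2 := ⟨_, rfl⟩
  have hMpos : 0 < M := by rw [hM]; linarith
  obtain ⟨δ, hδ⟩ : ∃ δ, δ = min 1 (ε / (16 * M)) := ⟨_, rfl⟩
  have hδ0 : 0 < δ := by rw [hδ]; exact lt_min one_pos (by positivity)
  have hδ1 : δ ≤ 1 := by rw [hδ]; exact min_le_left _ _
  have hδ2 : δ * M ≤ ε / 16 := by
    have : δ ≤ ε / (16 * M) := by rw [hδ]; exact min_le_right _ _
    calc δ * M ≤ ε / (16 * M) * M := mul_le_mul_of_nonneg_right this hMpos.le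
      _ = ε / 16 := by field_simp
  obtain ⟨F1, h1, h2, h3⟩ := ap F (c ^ 2) hFc δ hδ0
  obtain ⟨F1', h1', h2', h3'⟩ := ap' F' (c' ^ 2) hFc' δ hδ0
  have s1 := small (f := fun t => (c * c' / κ + ε / 8) - (c + t) * (c' + t) / κ)
    (by fun_prop) (by simp only [add_zero]; linarith)
  have s2 : ∀ᶠ t in 𝓝[>] (0 : ℝ), 0 < t := self_mem_nhdsWithin
  obtain ⟨t, s1, s2⟩ := (s1.and s2).exists
  have g1 := cov_ev hlog hw hV hV0 hB0 hB hBi hY hYB hκ0 hκ osc h1 h1'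
    (c := c + t) (c' := c' + t) (by linarith) (by linarith)
    (fun x => (h3 x).trans_lt (by nlinarith)) (fun x => (h3' x).trans_lt (by nlinarith))
    (ε := ε / 8) (by positivity)
  have g2 := avg_one_ev (S := S) hV0 F1 hδ0
  have g3 := avg_one_ev (S := S) hV0 F1' hδ0
  have g4 := avg_one_ev (S := S) hV0 (F1 * F1') (ε := ε / 8) (by positivity)
  filter_upwards [g1, g2, g3, g4, pos_ev hV] with τ g1 g2 g3 g4 p
  filter_upwards [g1] with k g1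
  obtain ⟨ψ, hψ⟩ : ∃ ψ, ψ = S.Itr V τ k := ⟨_, rfl⟩
  change |S.avg (1 - τ • V) (S.Itr V τ k) (F1 * F1') - S.avg (1 - τ • V) (S.Itr V τ k) F1 *
    S.avg (1 - τ • V) (S.Itr V τ k) F1'| ≤ _ at g1
  have hp := p k
  rw [← hψ] at g1 hp ⊢
  have e2 := g2 ψ hp
  have e3 := g3 ψ hp
  have e4 := g4 ψ hp
  have hb1 : ∀ x, |S.ev x F1| ≤ M0 + 1 := fun x => by
    have a1 := abs_sub_abs_le_abs_sub (S.ev x F1) (S.ev x F)
    linarith [h2 x, hM0 x]
  have hb1' : ∀ x, |S.ev x F1'| ≤ M1 + 1 := fun x => by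
    have a1 := abs_sub_abs_le_abs_sub (S.ev x F1') (S.ev x F')
    linarith [h2' x, hM1 x]
  have a1 : |S.avg 1 ψ F1| ≤ M := (avg_bd hp hb1).trans (by rw [hM]; linarith)
  have a1' : |S.avg 1 ψ F1'| ≤ M := (avg_bd hp hb1').trans (by rw [hM]; linarith)
  have a2 : |S.avg 1 ψ F'| ≤ M := (avg_bd hp hM1).trans (by rw [hM]; linarith)
  have a3 : |S.avg (1 - τ • V) ψ F1'| ≤ M := by
    have a4 := avg_bd hp hb1'
    have a5 := abs_sub_abs_le_abs_sub (S.avg (1 - τ • V) ψ F1') (S.avg 1 ψ F1')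
    rw [hM]; linarith
  -- the products
  have b1 : |S.avg 1 ψ F1 * S.avg 1 ψ F1' - S.avg 1 ψ F * S.avg 1 ψ F'| ≤ δ * M + M * δ := by
    have b2 := prod_near (avg_near hp h2) (avg_near hp h2') (M := M)
      ((avg_bd hp hM0).trans (by rw [hM]; linarith)) a1'
    exact b2
  have b3 : |S.avg (1 - τ • V) ψ F1 * S.avg (1 - τ • V) ψ F1' -
      S.avg 1 ψ F1 * S.avg 1 ψ F1'| ≤ δ * M + M * δ := prod_near e2 e3 a1 a3
  have b4 : |S.avg 1 ψ (F1 * F1') - S.avg 1 ψ (F * F')| ≤ δ * M + M * δ := by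
    refine avg_near hp fun x => ?_
    rw [map_mul, map_mul]
    exact prod_near (h2 x) (h2' x) ((hM0 x).trans (by rw [hM]; linarith))
      ((hb1' x).trans (by rw [hM]; linarith))
  have hMδ : M * δ = δ * M := mul_comm _ _
  rw [abs_le] at b1 b3 b4 e4 g1 ⊢
  constructor
  · linarith [b1.1, b1.2, b3.1, b3.2, b4.1, b4.2, e4.1, e4.2, g1.1]
  · linarith [b1.1, b1.2, b3.1, b3.2, b4.1, b4.2, e4.1, e4.2, g1.2]

/-- the energy of the iterates is at most the energy of any trial function -/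
theorem energy_ev' [CompactSpace X] [Nonempty X] (hw : S.Wt w) {V : A} (hV : S.Rep V)
    (hV0 : ∀ x, 0 ≤ S.ev x V) {B : ℝ} (hB0 : 0 ≤ B) (hB : S.HB w B V) {Y : ℝ} (hY : 0 < Y)
    (hYB : 2 * Y ^ 2 - S.K * Y + B < 0) {Lo : ℝ} (osc : S.Osc w Lo) (ap : S.ApxE) {u : A}
    (hu : S.I (u * u) = 1) {E1 : ℝ} (hE1 : S.I (S.G2 u) + S.I (V * (u * u)) ≤ E1) {ε : ℝ}
    (hε : 0 < ε) : ∀ᶠ τ in 𝓝[>] (0 : ℝ), ∀ᶠ k in atTop,
      S.I (S.G2 (S.Itr V τ k)) + S.I (V * (S.Itr V τ k * S.Itr V τ k)) ≤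
      (E1 + ε) * S.I (S.Itr V τ k * S.Itr V τ k) := by
  obtain ⟨M, hM0, hM⟩ := exists_bound (S := S) u
  obtain ⟨Vm, hVm0, hVm⟩ := exists_bound (S := S) V
  have hE10 : 0 ≤ E1 := by
    have a1 := I_G2_nonneg (S := S) u
    have a2 : 0 ≤ S.I (V * (u * u)) := I_nonneg fun x => by
      rw [map_mul, map_mul]; exact mul_nonneg (hV0 x) (mul_self_nonneg _)
    linarith
  obtain ⟨q, hq⟩ : ∃ q, q = Vm + E1 + ε / 2 := ⟨_, rfl⟩
  have hq0 : 0 < q := by rw [hq]; positivity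
  obtain ⟨η, hη⟩ : ∃ η, η = min (1 / 2) (ε / 2 / q) := ⟨_, rfl⟩
  have hη0 : 0 < η := by rw [hη]; exact lt_min (by norm_num) (by positivity)
  have hη1 : η ≤ 1 / 2 := by rw [hη]; exact min_le_left _ _
  have hη2 : q * η ≤ ε / 2 := by
    have : η ≤ ε / 2 / q := by rw [hη]; exact min_le_right _ _
    calc q * η ≤ q * (ε / 2 / q) := mul_le_mul_of_nonneg_left this hq0.le
      _ = ε / 2 := by field_simp
  obtain ⟨δ, hδ⟩ : ∃ δ, δ = min 1 (η / (2 * M + 1)) := ⟨_, rfl⟩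
  have hM1 : 0 < 2 * M + 1 := by linarith
  have hδ0 : 0 < δ := by rw [hδ]; exact lt_min one_pos (by positivity)
  have hδ1 : δ ≤ 1 := by rw [hδ]; exact min_le_left _ _
  have hδ2 : δ * (2 * M + 1) ≤ η := by
    have : δ ≤ η / (2 * M + 1) := by rw [hδ]; exact min_le_right _ _
    calc δ * (2 * M + 1) ≤ η / (2 * M + 1) * (2 * M + 1) :=
          mul_le_mul_of_nonneg_right this hM1.le
      _ = η := by field_simp
  obtain ⟨F, h1, h2, h3⟩ := ap u δ hδ0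
  have hsq : ∀ x, |S.ev x (F * F) - S.ev x (u * u)| ≤ η := by
    intro x
    rw [map_mul, map_mul]
    have e1 : S.ev x F * S.ev x F - S.ev x u * S.ev x u =
        (S.ev x F - S.ev x u) * ((S.ev x F - S.ev x u) + 2 * S.ev x u) := by ring
    rw [e1, abs_mul]
    have e2 : |S.ev x F - S.ev x u + 2 * S.ev x u| ≤ 2 * M + 1 := by
      refine (abs_add_le _ _).trans ?_
      rw [abs_mul, abs_two]
      linarith [h2 x, hM x]
    exact (mul_le_mul (h2 x) e2 (abs_nonneg _) hδ0.le).trans hδ2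
  have i1 : 1 - η ≤ S.I (F * F) := by
    have a1 := S.I_mono (f := u * u - η • 1) (g := F * F) fun x => by
      rw [map_sub, map_smul, map_one, smul_eq_mul, mul_one]
      linarith [(abs_le.1 (hsq x)).1]
    rw [map_sub, map_smul, S.I_one, smul_eq_mul, mul_one, hu] at a1
    exact a1
  have i2 : S.I (V * (F * F)) ≤ S.I (V * (u * u)) + Vm * η := by
    have a1 := S.I_mono (f := V * (F * F)) (g := V * (u * u) + (Vm * η) • 1) fun x => by
      rw [map_add, map_smul, map_one, smul_eq_mul, mul_one, map_mul (S.ev x) V,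
        map_mul (S.ev x) V]
      have e2 := (abs_le.1 (hsq x)).2
      have e3 : S.ev x V * (S.ev x (F * F) - S.ev x (u * u)) ≤ Vm * η :=
        (mul_le_mul_of_nonneg_left e2 (hV0 x)).trans
          (mul_le_mul_of_nonneg_right ((le_abs_self _).trans (hVm x)) hη0.le)
      linarith
    rw [map_add, map_smul, S.I_one, smul_eq_mul, mul_one] at a1
    exact a1
  have i3 : S.I (S.G2 F) + S.I (V * (F * F)) ≤ (E1 + ε / 2) * S.I (F * F) := by
    have a1 : (E1 + ε / 2) * (1 - η) ≤ (E1 + ε / 2) * S.I (F * F) :=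
      mul_le_mul_of_nonneg_left i1 (by positivity)
    rw [hq] at hη2
    nlinarith
  have g1 := energy_ev hw hV hV0 hB0 hB hY hYB osc h1 (m := 1 / 2) (by norm_num) (by linarith)
    (E1 := E1 + ε / 2) (by positivity) i3 (ε := ε / 2) (by positivity)
  filter_upwards [g1] with τ g1
  filter_upwards [g1] with k g1
  have e : E1 + ε / 2 + ε / 2 = E1 + ε := by ring
  rw [e] at g1
  exact g1

end Geo

end

end Pool.Agent.W504.YM
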