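import Mathlib
import Pool.Agent.W504.YT.T1
import Pool.Agent.YMI.SmLog
import Pool.Agent.YMI.Lat

/-!
# The data of the periodic lattices
-/

open MeasureTheory Matrix Filter Topology Set
open scoped Matrix.Norms.Frobenius ContDiff
open Pool.Agent.H906R3.YM Pool.Agent.YMI

namespace Pool.Agent.W504.YM

set_option linter.unusedSectionVars false

noncomputable section

variable {G : Type*} [Group G] [TopologicalSpace G] {N n : ℕ} {L : LD G N n}
variable {E : Type*} [Fintype E] [DecidableEq E]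
  [IsTopologicalGroup G] [CompactSpace G] [SecondCountableTopology G]
  [MeasurableSpace G] [BorelSpace G] {μ : Measure G} [IsProbabilityMeasure μ]
  [μ.IsMulLeftInvariant] [μ.IsOpenPosMeasure] {K : ℝ} {hK : 0 < K} {hc : Curv L K}

lemma hasLog_geo : (geo μ L E hK hc).HasLog := by
  intro f h
  obtain ⟨ℓ, -, h2⟩ := Sm_log f h
  exact ⟨ℓ, h2⟩

lemma wt_geo {w : E → ℝ} (hw : ∀ e, 0 < w e) : (geo μ L E hK hc).Wt fun j => w j.1 where
  pos := fun j => hw j.1
  sg13 := fun i j k h => by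
    show L.sig i j k = 0
    unfold LD.sig
    rw [if_neg]
    rintro ⟨-, h2⟩
    exact h (by rw [h2])
  sg12 := fun i j k h => by
    show L.sig i j k = 0
    unfold LD.sig
    rw [if_neg]
    rintro ⟨h1, -⟩
    exact h (by rw [h1])
  rot := fun x j k h => by
    show rotA L x j k = 0
    unfold rotA
    rw [if_neg]
    intro h1
    exact h (by rw [h1])

lemma G2_geo (x : E → G) (f : Sm L E) : (geo μ L E hK hc).ev x ((geo μ L E hK hc).G2 f) =
    L.ev x (Gam L.Dv f f) := rfl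

lemma osc_geo {r : ℝ} (hr : Cn L r) {w : E → ℝ} (hw : ∀ e, 0 < w e) :
    ∃ Lo, (geo μ L E hK hc).Osc (fun j => w j.1) Lo := by
  obtain ⟨m, hm0, hm⟩ : ∃ m : ℝ, 0 < m ∧ ∀ e, m ≤ w e := by
    rcases isEmpty_or_nonempty E with h | h
    · exact ⟨1, one_pos, fun e => (h.false e).elim⟩
    · obtain ⟨e0, he0⟩ := Finite.exists_min w
      exact ⟨w e0, hw e0, he0⟩
  refine ⟨(Fintype.card E * r) / m, fun f c hc0 hf x y => ?_⟩
  have h1 := osc_all hr f (C := c / m) (by positivity) (fun z => ?_) x y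
  · calc L.ev x f - L.ev y f ≤ _ := h1
      _ = (Fintype.card E * r) / m * c := by ring
  · rw [← G2_geo (μ := μ) (hK := hK) (hc := hc), Geo.ev_G2, div_pow, le_div_iff₀ (by positivity),
      Finset.sum_mul]
    refine le_trans ?_ (hf z)
    rw [Geo.ev_Gw]
    refine Finset.sum_le_sum fun j _ => ?_
    rw [mul_comm]
    exact mul_le_mul_of_nonneg_right (pow_le_pow_left₀ hm0.le (hm j.1) 2) (sq_nonneg _)

lemma apx_geo (hN : 0 < N) (w : E × Fin n → ℝ) : (geo μ L E hK hc).Apx w := by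
  intro u C hC δ hδ
  obtain ⟨M, hM, -⟩ := exists_moll2 μ hN u u hδ
  refine ⟨M.M u, Rep_Moll M u, hM, fun x => ?_⟩
  have h1 := G_moll μ M (fun j => w j ^ 2) (fun j => sq_nonneg _) u (C := C) (fun U => by
    have := hC U
    rw [Geo.ev_Gw] at this
    exact this) x
  rw [Geo.ev_Gw]
  exact h1

lemma apxE_geo (hN : 0 < N) : (geo μ L E hK hc).ApxE := by
  intro u δ hδ
  obtain ⟨M, hM, -⟩ := exists_moll2 μ hN u u hδ
  refine ⟨M.M u, Rep_Moll M u, hM, ?_⟩
  show L.I μ (Gam L.Dv (M.M u) (M.M u)) ≤ L.I μ (Gam L.Dv u u)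
  unfold Gam
  rw [map_sum, map_sum]
  refine Finset.sum_le_sum fun j _ => ?_
  rw [M.comm]
  have e2 := M.contr (L.Dv j u)
  have e3 := pow_le_pow_left₀ (nr_nonneg _) e2 2
  rw [nr_sq, nr_sq] at e3
  exact e3

variable {D l : ℕ} [NeZero l]

/-- the weighted bound for the magnetic energy -/
lemma hb_geo (hD : 1 ≤ D) {w : Ed D l → ℝ} (hw : ∀ e, 0 < w e) {r : ℝ}
    (hr : ∀ p e e', inPl p e → inPl p e' → w e ≤ r * w e') {c : Pl D l → ℝ}
    (hcc : ∀ p, 0 ≤ c p ∧ c p ≤ 1) {s : ℝ} (hs : 0 ≤ s) :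
    (geo μ L (Ed D l) hK hc).HB (fun j => w j.1) (s * (8 * ((D : ℝ) - 1) * r))
      (s • VC L D l c) := by
  intro x η hη
  have h1 := VC_bound (L := L) hD w hw hr hcc η x
  rw [hη, mul_one] at h1
  have h2 : (geo μ L (Ed D l) hK hc).Rw (fun j => w j.1) η (s • VC L D l c) =
      s • ∑ k, ((w k.1)⁻¹ * η k) • Rv L k (VC L D l c) := by
    unfold Geo.Rw Geo.Rη
    rw [Finset.smul_sum]
    refine Finset.sum_congr rfl fun k _ => ?_
    rw [Derivation.map_smul, smul_comm]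
    rfl
  rw [h2, Geo.Gw_smul, map_smul, smul_eq_mul, Geo.ev_Gw, mul_pow]
  exact mul_le_mul_of_nonneg_left h1 (sq_nonneg _)

/-- the weighted gradient of the magnetic energy outside of a set -/
lemma grad_geo (hD : 1 ≤ D) (w : Ed D l → ℝ) {c c' : Pl D l → ℝ} (hcc : ∀ p, |c p - c' p| ≤ 1)
    (T : Finset (Ed D l)) (hT : ∀ p, c p - c' p ≠ 0 → ∀ e, inPl p e → e ∈ T) {s : ℝ}
    (x : Ed D l → G) :
    (geo μ L (Ed D l) hK hc).ev x ((geo μ L (Ed D l) hK hc).Gw (fun j => w j.1)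
      (s • VC L D l c - s • VC L D l c')) ≤
      s ^ 2 * (N * (2 * ((D : ℝ) - 1)) ^ 2 * ∑ e ∈ T, (w e) ^ 2) := by
  have h1 := VC_grad (L := L) hD w hcc T hT x
  rw [← smul_sub, VC_sub, Geo.Gw_smul, map_smul, smul_eq_mul, Geo.ev_Gw]
  exact mul_le_mul_of_nonneg_left h1 (sq_nonneg _)

lemma VC_nn {c : Pl D l → ℝ} (hcc : ∀ p, 0 ≤ c p) {s : ℝ} (hs : 0 ≤ s) (x : Ed D l → G) :
    0 ≤ (geo μ L (Ed D l) hK hc).ev x (s • VC L D l c) := by
  rw [map_smul, smul_eq_mul]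
  exact mul_nonneg hs (VC_nonneg hcc x)

/-- the iterates are gauge invariant -/
lemma inv_itr {V : Sm L (Ed D l)} (hV : (geo μ L (Ed D l) hK hc).Rep V) (hi : H906R3.YM.Inv V) {τ : ℝ}
    (hτ : 0 ≤ τ) (k : ℕ) : H906R3.YM.Inv ((geo μ L (Ed D l) hK hc).Itr V τ k) := by
  have ha := Geo.one_rep hV τ
  have hai : H906R3.YM.Inv (1 - τ • V) := Inv.one.sub (hi.smul τ)
  unfold Geo.Itr
  induction k with
  | zero => exact Inv.one
  | succ k ih =>
    rw [Function.iterate_succ_apply']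
    exact Inv_P (ha.mul (Geo.It_rep ha Geo.Rep.one τ k)) (hai.mul ih) hτ

end

end Pool.Agent.W504.YM
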