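import Mathlib
import Pool.Agent.W504.YT.T2
import Pool.Agent.YMI.Bridge

/-!
# Low energy functions on the periodic lattices
-/

open MeasureTheory Matrix Filter Topology
open scoped ContDiff Matrix.Norms.Frobenius
open Pool.Agent.H906R3 Pool.Agent.YMI

namespace Pool.Agent.W504.YT

set_option linter.unusedSectionVars false

noncomputable section

variable {N n D : ℕ} {G : Subgroup (UU N)} [CompactSpace G] [SecondCountableTopology G]
  [MeasurableSpace G] [BorelSpace G] {μ : Measure G} [IsProbabilityMeasure μ] [μ.IsHaarMeasure]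
  {l : ℕ} [NeZero l] {B : LieBasis G n} {g K : ℝ} {hK : 0 < K} {hc : W504.YM.Curv (ld B) K}

/-- the potential -/
def Vf (B : LieBasis G n) (g : ℝ) (D l : ℕ) [NeZero l] (c : YM.Pl D l → ℝ) :
    YM.Sm (ld B) (Link D l) := (2 / g ^ 4) • VC (ld B) D l c

/-- the geometric data -/
def gT (μ : Measure G) [IsProbabilityMeasure μ] [μ.IsHaarMeasure] (B : LieBasis G n)
    (D l : ℕ) [NeZero l] (hK : 0 < K) (hc : W504.YM.Curv (ld B) K) :
    W504.YM.Geo (YM.Sm (ld B) (Link D l)) (Link D l × Fin n) (Link D l → G) :=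
  W504.YM.geo μ (ld B) (Link D l) hK hc

/-- the iterates -/
def it (μ : Measure G) [IsProbabilityMeasure μ] [μ.IsHaarMeasure] (B : LieBasis G n)
    (D l : ℕ) [NeZero l] (hK : 0 < K) (hc : W504.YM.Curv (ld B) K) (g : ℝ) (c : YM.Pl D l → ℝ)
    (τ : ℝ) (k : ℕ) : YM.Sm (ld B) (Link D l) :=
  (gT μ B D l hK hc).Itr (Vf B g D l c) τ k

lemma Vf_rep (c : YM.Pl D l → ℝ) : (gT μ B D l hK hc).Rep (Vf B g D l c) :=
  (Rep_VC μ c).smul _

lemma energy_gT (hg : 0 < g) (F : YM.Sm (ld B) (Link D l)) : energy B μ g F.1 =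
    g ^ 2 / 2 * ((gT μ B D l hK hc).I ((gT μ B D l hK hc).G2 F) +
      (gT μ B D l hK hc).I (Vf B g D l (fun _ => 1) * (F * F))) := by
  rw [energy_eq]
  show g ^ 2 / 2 * (ld B).I μ (YM.Gam (ld B).Dv F F) +
      1 / g ^ 2 * (ld B).I μ (YM.VT (ld B) D l * (F * F)) =
      g ^ 2 / 2 * ((ld B).I μ (YM.Gam (ld B).Dv F F) +
        (ld B).I μ (Vf B g D l (fun _ => 1) * (F * F)))
  unfold Vf
  rw [VC_one, smul_mul_assoc, map_smul, smul_eq_mul]
  field_simp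

lemma energy_smul (c : ℝ) (F : YM.Sm (ld B) (Link D l)) :
    energy B μ g (c • F).1 = c ^ 2 * energy B μ g F.1 := by
  have h1 := enr_eq' μ B g 0 (c • F)
  have h2 := enr_eq' μ B g 0 F
  rw [zero_mul, sub_zero] at h1 h2
  rw [← h1, ← h2, enr_smul]

lemma barrier (hg : 0 < g) (hgK : 128 * ((D : ℝ) - 1) < g ^ 4 * K ^ 2) :
    2 * (K / 4) ^ 2 - K * (K / 4) + 2 / g ^ 4 * (8 * ((D : ℝ) - 1) * 1) < 0 := by
  have hg4 : 0 < g ^ 4 := by positivity
  have h1 : 2 / g ^ 4 * (8 * ((D : ℝ) - 1) * 1) = 128 * ((D : ℝ) - 1) / g ^ 4 / 8 := by ring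
  have h2 : 128 * ((D : ℝ) - 1) / g ^ 4 < K ^ 2 := by
    rw [div_lt_iff₀ hg4]; linarith
  rw [h1]
  nlinarith

/-- The energy of the iterates is at most that of any trial function. -/
theorem energy_torus (hN : 0 < N) (hD : 1 ≤ D) (hg : 0 < g)
    (hgK : 128 * ((D : ℝ) - 1) < g ^ 4 * K ^ 2) {r : ℝ} (hr : W504.YM.Cn (ld B) r)
    (F : YM.Sm (ld B) (Link D l)) (h1 : (ld B).I μ (F * F) = 1) {ε : ℝ} (hε : 0 < ε) :
    ∀ᶠ τ in 𝓝[>] (0 : ℝ), ∀ᶠ k in atTop,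
      energy B μ g (it μ B D l hK hc g (fun _ => 1) τ k).1 ≤ (energy B μ g F.1 + ε) *
        (ld B).I μ (it μ B D l hK hc g (fun _ => 1) τ k * it μ B D l hK hc g (fun _ => 1) τ k) := by
  have hg2 : 0 < g ^ 2 := by positivity
  have hD' : (0 : ℝ) ≤ D - 1 := by
    have : (1 : ℝ) ≤ D := by exact_mod_cast hD
    linarith
  obtain ⟨Lo, hLo⟩ := W504.YM.osc_geo (μ := μ) (L := ld B) (E := Link D l) (hK := hK) (hc := hc)
    hr (w := fun _ => 1) (fun _ => one_pos)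
  have hb := W504.YM.hb_geo (μ := μ) (L := ld B) (hK := hK) (hc := hc) hD (l := l)
    (w := fun _ => 1) (fun _ => one_pos) (r := 1) (fun p e e' _ _ => by norm_num)
    (c := fun _ => 1) (fun p => ⟨zero_le_one, le_rfl⟩) (s := 2 / g ^ 4) (by positivity)
  have hw := W504.YM.wt_geo (μ := μ) (L := ld B) (E := Link D l) (hK := hK) (hc := hc)
    (w := fun _ => 1) (fun _ => one_pos)
  have key := W504.YM.Geo.energy_ev' (S := gT μ B D l hK hc) hw (V := Vf B g D l fun _ => 1)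
    (Vf_rep _) (fun x => W504.YM.VC_nn (fun _ => zero_le_one) (by positivity) x)
    (B := 2 / g ^ 4 * (8 * ((D : ℝ) - 1) * 1)) (by positivity) hb (Y := K / 4) (by linarith)
    (barrier hg hgK) hLo (W504.YM.apxE_geo hN) (u := F) h1
    (E1 := 2 / g ^ 2 * energy B μ g F.1) (by
      rw [energy_gT (hK := hK) (hc := hc) hg F]
      have aux : ∀ T : ℝ, T ≤ 2 / g ^ 2 * (g ^ 2 / 2 * T) := fun T => le_of_eq (by field_simp)
      exact aux _) (ε := 2 / g ^ 2 * ε) (by positivity)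
  filter_upwards [key] with τ key
  filter_upwards [key] with k key
  rw [energy_gT (hK := hK) (hc := hc) hg]
  have h2 := mul_le_mul_of_nonneg_left key (show 0 ≤ g ^ 2 / 2 by positivity)
  refine h2.trans (le_of_eq ?_)
  show g ^ 2 / 2 * ((2 / g ^ 2 * energy B μ g F.1 + 2 / g ^ 2 * ε) *
    (ld B).I μ (it μ B D l hK hc g (fun _ => 1) τ k * it μ B D l hK hc g (fun _ => 1) τ k)) = _
  field_simp

lemma it_inv {τ : ℝ} (hτ : 0 ≤ τ) (k : ℕ) :
    YM.Inv (it μ B D l hK hc g (fun _ => 1) τ k) := by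
  refine W504.YM.inv_itr (Vf_rep _) ?_ hτ k
  unfold Vf
  rw [VC_one]
  exact YM.Inv.smul _ fun γ => YM.gs_VT γ

lemma it_norm {c : YM.Pl D l → ℝ} {τ : ℝ} {k : ℕ}
    (h : ∀ x, 0 < (gT μ B D l hK hc).ev x (it μ B D l hK hc g c τ k)) :
    0 < (ld B).I μ (it μ B D l hK hc g c τ k * it μ B D l hK hc g c τ k) :=
  W504.YM.Geo.I_pos (S := gT μ B D l hK hc) fun x => by
    rw [map_mul]; exact mul_pos (h x) (h x)

/-- The infimum over the gauge invariant functions is the infimum over all functions. -/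
theorem ground_le' (hN : 0 < N) (hD : 1 ≤ D) (hg : 0 < g) (hK : 0 < K)
    (hc : W504.YM.Curv (ld B) K)
    (hgK : 128 * ((D : ℝ) - 1) < g ^ 4 * K ^ 2) {r : ℝ} (hr : W504.YM.Cn (ld B) r)
    (F : YM.Sm (ld B) (Link D l)) (h1 : (ld B).I μ (F * F) = 1) :
    groundEnergy D l B μ g ≤ energy B μ g F.1 := by
  refine le_of_forall_pos_le_add fun ε hε => ?_
  have h2 := energy_torus (hK := hK) (hc := hc) hN hD hg hgK hr F h1 hε
  have h3 := W504.YM.Geo.pos_ev (S := gT μ B D l hK hc) (Vf_rep (g := g) fun _ => 1)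
  have h4 : ∀ᶠ τ in 𝓝[>] (0 : ℝ), 0 < τ := self_mem_nhdsWithin
  obtain ⟨τ, h2, h3, h4⟩ := (h2.and (h3.and h4)).exists
  obtain ⟨k, h2⟩ := h2.exists
  have h5 := it_norm (h3 k)
  have h6 := ground_pos μ B g _ (it_inv (μ := μ) (B := B) (hK := hK) (hc := hc) (g := g)
    (D := D) (l := l) h4.le k)
  rw [enr_eq'] at h6
  have h7 : groundEnergy D l B μ g *
      (ld B).I μ (it μ B D l hK hc g (fun _ => 1) τ k * it μ B D l hK hc g (fun _ => 1) τ k) ≤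
      (energy B μ g F.1 + ε) *
      (ld B).I μ (it μ B D l hK hc g (fun _ => 1) τ k * it μ B D l hK hc g (fun _ => 1) τ k) := by
    linarith
  exact le_of_mul_le_mul_right h7 h5

theorem ground_le (hN : 0 < N) (hD : 1 ≤ D) (hg : 0 < g) (hK : 0 < K)
    (hc : W504.YM.Curv (ld B) K)
    (hgK : 128 * ((D : ℝ) - 1) < g ^ 4 * K ^ 2) {r : ℝ} (hr : W504.YM.Cn (ld B) r)
    (F : (Link D l → G) → ℝ) (hF : IsSmooth F) :
    groundEnergy D l B μ g * ∫ U, F U ^ 2 ∂(Measure.pi fun _ : Link D l => μ) ≤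
      energy B μ g F := by
  suffices hs : ∀ F' : YM.Sm (ld B) (Link D l), groundEnergy D l B μ g *
      (ld B).I μ (F' * F') ≤ energy B μ g F'.1 by
    have h0 := hs ⟨F, hF⟩
    rw [← norm_eq] at h0
    exact h0
  intro F'
  obtain ⟨Z, hZ⟩ : ∃ Z : ℝ, Z = (ld B).I μ (F' * F') := ⟨_, rfl⟩
  have hZ0 : 0 ≤ Z := by rw [hZ]; exact YM.I_sq_nonneg μ _
  rw [← hZ]
  rcases hZ0.eq_or_lt with h1 | h1
  · rw [← h1, mul_zero]
    exact energy_nonneg μ B g F'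
  · obtain ⟨c, hcc⟩ : ∃ c : ℝ, c = (Real.sqrt Z)⁻¹ := ⟨_, rfl⟩
    have hc2 : c ^ 2 * Z = 1 := by
      rw [hcc, inv_pow, Real.sq_sqrt h1.le, inv_mul_cancel₀ h1.ne']
    have hn1 : (ld B).I μ (c • F' * (c • F')) = 1 := by
      rw [smul_mul_assoc, mul_smul_comm, map_smul, map_smul, smul_eq_mul, smul_eq_mul, ← hZ,
        ← hc2]
      ring
    have h2 := ground_le' hN hD hg hK hc hgK hr (c • F') hn1
    rw [energy_smul] at h2
    have h3 := mul_le_mul_of_nonneg_right h2 h1.le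
    calc groundEnergy D l B μ g * Z ≤ c ^ 2 * energy B μ g F'.1 * Z := h3
      _ = c ^ 2 * Z * energy B μ g F'.1 := by ring
      _ = energy B μ g F'.1 := by rw [hc2, one_mul]

/-- normalization -/
def nf (μ : Measure G) [IsProbabilityMeasure μ] [μ.IsHaarMeasure]
    (ψ : YM.Sm (ld B) (Link D l)) : YM.Sm (ld B) (Link D l) :=
  (Real.sqrt ((ld B).I μ (ψ * ψ)))⁻¹ • ψ

lemma low_nf {ψ : YM.Sm (ld B) (Link D l)} (hψ : 0 < (ld B).I μ (ψ * ψ)) {ε : ℝ}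
    (h : energy B μ g ψ.1 ≤ (groundEnergy D l B μ g + ε) * (ld B).I μ (ψ * ψ)) :
    Low B μ g l ε (nf μ ψ).1 := by
  obtain ⟨Z, hZ⟩ : ∃ Z : ℝ, Z = (ld B).I μ (ψ * ψ) := ⟨_, rfl⟩
  obtain ⟨c, hcc⟩ : ∃ c : ℝ, c = (Real.sqrt Z)⁻¹ := ⟨_, rfl⟩
  rw [← hZ] at hψ h
  have hc2 : c ^ 2 * Z = 1 := by
    rw [hcc, inv_pow, Real.sq_sqrt hψ.le, inv_mul_cancel₀ hψ.ne']
  have e : nf μ ψ = c • ψ := by unfold nf; rw [← hZ, ← hcc]
  refine ⟨(nf μ ψ).2, ?_, ?_⟩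
  · rw [norm_eq, e, smul_mul_assoc, mul_smul_comm, map_smul, map_smul, smul_eq_mul, smul_eq_mul,
      ← hZ, ← hc2]
    ring
  · rw [e, energy_smul]
    calc c ^ 2 * energy B μ g ψ.1 ≤ c ^ 2 * ((groundEnergy D l B μ g + ε) * Z) :=
          mul_le_mul_of_nonneg_left h (sq_nonneg _)
      _ = c ^ 2 * Z * (groundEnergy D l B μ g + ε) := by ring
      _ = _ := by rw [hc2, one_mul]

lemma ex_nf {ψ : YM.Sm (ld B) (Link D l)} (hψ : 0 < (ld B).I μ (ψ * ψ))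
    (F : YM.Sm (ld B) (Link D l)) : ex μ (nf μ ψ).1 F.1 = (gT μ B D l hK hc).avg 1 ψ F := by
  obtain ⟨Z, hZ⟩ : ∃ Z : ℝ, Z = (ld B).I μ (ψ * ψ) := ⟨_, rfl⟩
  obtain ⟨c, hcc⟩ : ∃ c : ℝ, c = (Real.sqrt Z)⁻¹ := ⟨_, rfl⟩
  rw [← hZ] at hψ
  have hc2 : c ^ 2 = Z⁻¹ := by
    rw [hcc, inv_pow, Real.sq_sqrt hψ.le]
  have e : nf μ ψ = c • ψ := by unfold nf; rw [← hZ, ← hcc]
  unfold ex W504.YM.Geo.avg
  rw [one_mul, one_mul]
  show _ = (ld B).I μ (F * (ψ * ψ)) / (ld B).I μ (ψ * ψ)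
  rw [← hZ, YM.I_apply, e, div_eq_inv_mul, ← hc2, ← integral_const_mul]
  refine integral_congr_ae (Filter.Eventually.of_forall fun U => ?_)
  show F.1 U * (c * ψ.1 U) ^ 2 = c ^ 2 * (F.1 U * (ψ.1 U * ψ.1 U))
  ring

/-- For small steps, many iterations give functions of low energy. -/
theorem low_ev (hN : 0 < N) (hD : 1 ≤ D) (hg : 0 < g)
    (hgK : 128 * ((D : ℝ) - 1) < g ^ 4 * K ^ 2) {r : ℝ} (hr : W504.YM.Cn (ld B) r)
    {ε : ℝ} (hε : 0 < ε) : ∀ᶠ τ in 𝓝[>] (0 : ℝ), ∀ᶠ k in atTop,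
      Low B μ g l ε (nf μ (it μ B D l hK hc g (fun _ => 1) τ k)).1 := by
  obtain ⟨_, ⟨Ψ, hΨ, rfl⟩, h1⟩ := exists_lt_of_csInf_lt (ground_nonempty (D := D) (l := l) μ B g)
    (show groundEnergy D l B μ g < groundEnergy D l B μ g + ε / 2 by linarith)
  have h2 := energy_torus (μ := μ) (hK := hK) (hc := hc) hN hD hg hgK hr
    (⟨Ψ, hΨ.smooth⟩ : YM.Sm (ld B) (Link D l)) (by rw [← norm_eq]; exact hΨ.norm)
    (ε := ε / 2) (by positivity)
  have h3 := W504.YM.Geo.pos_ev (S := gT μ B D l hK hc) (Vf_rep (g := g) fun _ => 1)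
  filter_upwards [h2, h3] with τ h2 h3
  filter_upwards [h2] with k h2
  have h5 := it_norm (h3 k)
  refine low_nf h5 (h2.trans ?_)
  exact mul_le_mul_of_nonneg_right (by
    have : energy B μ g Ψ < groundEnergy D l B μ g + ε / 2 := h1
    change energy B μ g Ψ + ε / 2 ≤ _
    linarith) h5.le

/-- There are gauge invariant functions of low energy. -/
theorem low_inv {ε : ℝ} (hε : 0 < ε) : ∃ Ψ : (Link D l → G) → ℝ, GaugeInv Ψ ∧
    Low B μ g l ε Ψ := by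
  obtain ⟨_, ⟨Ψ, hΨ, rfl⟩, h1⟩ := exists_lt_of_csInf_lt (ground_nonempty (D := D) (l := l) μ B g)
    (show groundEnergy D l B μ g < groundEnergy D l B μ g + ε by linarith)
  exact ⟨Ψ, hΨ.inv, hΨ.smooth, hΨ.norm, le_of_lt h1⟩

end

end Pool.Agent.W504.YT
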