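import Mathlib
import Pool.Agent.W504.YT.T3
import Pool.Agent.YMI.E1

/-!
# Clustering on the periodic lattices
-/

open MeasureTheory Matrix Filter Topology
open scoped ContDiff Matrix.Norms.Frobenius
open Pool.Agent.H906R3 Pool.Agent.YMI

namespace Pool.Agent.W504.YT

set_option linter.unusedSectionVars false

noncomputable section

variable {N n D : ℕ} {G : Subgroup (UU N)} [CompactSpace G] [SecondCountableTopology G]
  [MeasurableSpace G] [BorelSpace G] {μ : Measure G} [IsProbabilityMeasure μ] [μ.IsHaarMeasure]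
  {l : ℕ} [NeZero l] {B : LieBasis G n} {g K : ℝ} {hK : 0 < K} {hc : W504.YM.Curv (ld B) K}

/-- the smooth function on the periodic lattice given by a local observable -/
def pf (B : LieBasis G n) {Λ : Finset (LinkZ D)} {F : (LinkZ D → G) → ℝ} (hF : IsLocal Λ F)
    (l : ℕ) [NeZero l] : YM.Sm (ld B) (Link D l) := ⟨fun U => F (per U), per_smooth hF l⟩

lemma wgrad {m : ℕ} {Λ : Finset (LinkZ D)} (hΛ : ∀ e ∈ Λ, ∀ k, |e.1 k| ≤ m)
    {F : (LinkZ D → G) → ℝ} (hF : IsLocal Λ F) (hl : 2 * m < l) {c q : ℝ}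
    (hcc : ∀ U, gradSq B Λ F U ≤ c ^ 2) (v : Link D l → ℝ) (hv0 : ∀ e, 0 ≤ v e)
    (hv : ∀ e ∈ Λ, v (prj l e) ≤ q) (x : Link D l → G) :
    (gT μ B D l hK hc).ev x ((gT μ B D l hK hc).Gw (fun j => v j.1) (pf B hF l)) ≤
      (c * q) ^ 2 := by
  rw [W504.YM.Geo.ev_Gw]
  have h1 : ∀ j : Link D l × Fin n,
      v j.1 ^ 2 * (gT μ B D l hK hc).ev x ((gT μ B D l hK hc).D j (pf B hF l)) ^ 2 ≤
      q ^ 2 * dlink B j.1 j.2 (fun U : Link D l → G => F (per U)) x ^ 2 := by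
    intro j
    have h2 : (gT μ B D l hK hc).ev x ((gT μ B D l hK hc).D j (pf B hF l)) =
        dlink B j.1 j.2 (fun U : Link D l → G => F (per U)) x :=
      (dlink_eq B j.1 j.2 (pf B hF l) x).symm
    rw [h2]
    by_cases he : ∃ e' ∈ Λ, cst l e' = j.1
    · obtain ⟨e', he', h3⟩ := he
      have h4 : v j.1 ≤ q := by rw [← h3]; exact hv e' he'
      exact mul_le_mul_of_nonneg_right (pow_le_pow_left₀ (hv0 _) h4 2) (sq_nonneg _)
    · push Not at he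
      rw [dlink_out B hF x j.1 he j.2]
      simp
  refine (Finset.sum_le_sum fun j _ => h1 j).trans ?_
  rw [← Finset.mul_sum, Fintype.sum_prod_type
    (f := fun j : Link D l × Fin n => dlink B j.1 j.2 (fun U : Link D l → G => F (per U)) x ^ 2),
    per_grad B hΛ hF hl x, mul_pow, mul_comm]
  exact mul_le_mul_of_nonneg_right (hcc _) (sq_nonneg _)

/-- the weights given by a distance function -/
def wd (a : ℝ) (d : Link D l → ℕ) (e : Link D l) : ℝ := Real.exp (-(a * (d e : ℝ)))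

lemma wd_pos (a : ℝ) (d : Link D l → ℕ) (e : Link D l) : 0 < wd a d e := Real.exp_pos _

lemma wd_ratio {a : ℝ} (ha : 0 ≤ a) {d : Link D l → ℕ} {e e' : Link D l} (h : d e' ≤ d e + 1) :
    wd a d e ≤ Real.exp a * wd a d e' := by
  unfold wd
  rw [← Real.exp_add, Real.exp_le_exp]
  have : ((d e' : ℕ) : ℝ) ≤ d e + 1 := by exact_mod_cast h
  have := mul_le_mul_of_nonneg_left this ha
  linarith

lemma wd_ratio' {a : ℝ} (ha : 0 ≤ a) {d : Link D l → ℕ} {e e' : Link D l} (h : d e ≤ d e' + 1) :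
    (wd a d e)⁻¹ ≤ Real.exp a * (wd a d e')⁻¹ := by
  unfold wd
  rw [← Real.exp_neg, ← Real.exp_neg, ← Real.exp_add, Real.exp_le_exp, neg_neg, neg_neg]
  have : ((d e : ℕ) : ℝ) ≤ d e' + 1 := by exact_mod_cast h
  have := mul_le_mul_of_nonneg_left this ha
  linarith

/-- the number which bounds the mixed second derivatives -/
def bB (D : ℕ) (g a : ℝ) : ℝ := 2 / g ^ 4 * (8 * ((D : ℝ) - 1) * Real.exp a)

lemma hb1 (hD : 1 ≤ D) {a : ℝ} (ha : 0 ≤ a) {d : Link D l → ℕ}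
    (hd : ∀ p e e', inPl p e → inPl p e' → d e ≤ d e' + 1) {c : YM.Pl D l → ℝ}
    (hcc : ∀ p, 0 ≤ c p ∧ c p ≤ 1) :
    (gT μ B D l hK hc).HB (fun j => wd a d j.1) (bB D g a) (Vf B g D l c) :=
  W504.YM.hb_geo hD (wd_pos a d) (fun p e e' h h' => wd_ratio ha (hd p e' e h' h)) hcc
    (by positivity)

lemma hb2 (hD : 1 ≤ D) {a : ℝ} (ha : 0 ≤ a) {d : Link D l → ℕ}
    (hd : ∀ p e e', inPl p e → inPl p e' → d e ≤ d e' + 1) {c : YM.Pl D l → ℝ}
    (hcc : ∀ p, 0 ≤ c p ∧ c p ≤ 1) :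
    (gT μ B D l hK hc).HB (fun j => (wd a d j.1)⁻¹) (bB D g a) (Vf B g D l c) :=
  W504.YM.hb_geo hD (w := fun e => (wd a d e)⁻¹) (fun e => inv_pos.2 (wd_pos a d e))
    (fun p e e' h h' => wd_ratio' ha (hd p e e' h h')) hcc (by positivity)

lemma bB_nonneg (hD : 1 ≤ D) (hg : 0 < g) (a : ℝ) : 0 ≤ bB D g a := by
  have hD' : (0 : ℝ) ≤ D - 1 := by
    have : (1 : ℝ) ≤ D := by exact_mod_cast hD
    linarith
  unfold bB
  positivity

/-- the clustering constant -/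
def kap (D : ℕ) (g K a : ℝ) : ℝ :=
  2 / (K + Real.sqrt (K ^ 2 - 128 * ((D : ℝ) - 1) * Real.exp a / g ^ 4))

/-- the choice of the constants -/
lemma consts (hg : 0 < g) (hD : 1 ≤ D) (hK : 0 < K) {a : ℝ}
    (haK : 128 * ((D : ℝ) - 1) * Real.exp a < g ^ 4 * K ^ 2) {X ε : ℝ} (hX : 0 ≤ X) (hε : 0 < ε) :
    ∃ Y κ : ℝ, 0 < Y ∧ 2 * Y ^ 2 - K * Y + bB D g a < 0 ∧ 0 < κ ∧ κ < K - 2 * Y ∧
      X / κ ≤ kap D g K a * X + ε := by
  have hg4 : 0 < g ^ 4 := by positivity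
  have hD' : (0 : ℝ) ≤ D - 1 := by
    have : (1 : ℝ) ≤ D := by exact_mod_cast hD
    linarith
  obtain ⟨q, hq⟩ : ∃ q, q = 128 * ((D : ℝ) - 1) * Real.exp a / g ^ 4 := ⟨_, rfl⟩
  have hbq : bB D g a = q / 8 := by unfold bB; rw [hq]; ring
  have hq0 : 0 ≤ q := by rw [hq]; positivity
  have hqK : q < K ^ 2 := by
    rw [hq, div_lt_iff₀ hg4]
    linarith
  obtain ⟨t0, ht0⟩ : ∃ t0, t0 = Real.sqrt (K ^ 2 - q) := ⟨_, rfl⟩
  have ht00 : 0 < t0 := by rw [ht0]; exact Real.sqrt_pos.2 (by linarith)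
  have ht02 : t0 ^ 2 = K ^ 2 - q := by rw [ht0]; exact Real.sq_sqrt (by linarith)
  have ht0K : t0 ≤ K := by
    refine abs_le_of_sq_le_sq' ?_ hK.le |>.2
    rw [ht02]; linarith
  have hkap : kap D g K a = 2 / (K + t0) := by unfold kap; rw [ht0, hq]
  obtain ⟨q0, hq00⟩ : ∃ q0, q0 = (K + t0) / 2 := ⟨_, rfl⟩
  have hq0pos : 0 < q0 := by rw [hq00]; linarith
  have s1 := W504.YM.Geo.small (f := fun s => (X / q0 + ε) * (q0 - s) - X) (by fun_prop) (by
    simp only [sub_zero]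
    have : X / q0 * q0 = X := div_mul_cancel₀ _ hq0pos.ne'
    nlinarith [mul_pos hε hq0pos])
  have s2 := W504.YM.Geo.small (f := fun s => t0 - s) (by fun_prop)
    (by simp only [sub_zero]; exact ht00)
  have s3 : ∀ᶠ s in 𝓝[>] (0 : ℝ), 0 < s := self_mem_nhdsWithin
  obtain ⟨s, s1, s2, s3⟩ := (s1.and (s2.and s3)).exists
  refine ⟨(K - (t0 - s)) / 4, q0 - s, by linarith, ?_, ?_, ?_, ?_⟩
  · rw [hbq]
    nlinarith
  · rw [hq00]; linarith
  · rw [hq00]; linarith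
  · have h1 : 0 < q0 - s := by rw [hq00]; linarith
    rw [div_le_iff₀ h1]
    have h2 : kap D g K a * X = X / q0 := by rw [hkap, hq00]; field_simp
    rw [h2]
    linarith

/-- Clustering. -/
theorem clustering (hN : 0 < N) (hD : 1 ≤ D) (hg : 0 < g) (hK : 0 < K)
    (hc : W504.YM.Curv (ld B) K)
    (hgK : 128 * ((D : ℝ) - 1) < g ^ 4 * K ^ 2) {r : ℝ} (hr : W504.YM.Cn (ld B) r) {a : ℝ}
    (ha : 0 ≤ a) (haK : 128 * ((D : ℝ) - 1) * Real.exp a < g ^ 4 * K ^ 2)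
    (Λ Λ' : Finset (LinkZ D)) (F F' : (LinkZ D → G) → ℝ) (c c' : ℝ) (R : ℕ)
    (hF : IsLocal Λ F) (hF' : IsLocal Λ' F') (hc0 : 0 ≤ c) (hc0' : 0 ≤ c')
    (hcc : ∀ U, gradSq B Λ F U ≤ c ^ 2) (hcc' : ∀ U, gradSq B Λ' F' U ≤ c' ^ 2)
    (hdis : ∀ e ∈ Λ, ∀ e' ∈ Λ', R ≤ dis e e') :
    ∃ l₀ : ℕ, ∀ (l : ℕ) [NeZero l], l₀ ≤ l → ∀ ε : ℝ, 0 < ε →
      ∃ (Ψ : (Link D l → G) → ℝ), Low B μ g l ε Ψ ∧
        |ex μ Ψ (fun U => F (per U) * F' (per U)) -
          ex μ Ψ (fun U => F (per U)) * ex μ Ψ (fun U => F' (per U))| ≤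
          kap D g K a * c * c' * Real.exp (-(a * R)) + ε := by
  classical
  obtain ⟨l1, hl1⟩ := exists_dist Λ Λ' R hdis
  obtain ⟨m, hm⟩ : ∃ m : ℕ, ∀ e ∈ Λ ∪ Λ', ∀ k, |e.1 k| ≤ (m : ℤ) := by
    refine ⟨(Λ ∪ Λ').sup fun e => Finset.univ.sup fun k => (e.1 k).natAbs, fun e he k => ?_⟩
    have h1 : (e.1 k).natAbs ≤ Finset.univ.sup fun k => (e.1 k).natAbs :=
      Finset.le_sup (f := fun k => (e.1 k).natAbs) (Finset.mem_univ k)
    have h2 : (Finset.univ.sup fun k => (e.1 k).natAbs) ≤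
        (Λ ∪ Λ').sup fun e => Finset.univ.sup fun k => (e.1 k).natAbs :=
      Finset.le_sup (f := fun e : LinkZ D => Finset.univ.sup fun k => (e.1 k).natAbs) he
    have h3 : |e.1 k| = ((e.1 k).natAbs : ℤ) := Int.abs_eq_natAbs _
    rw [h3]
    exact_mod_cast h1.trans h2
  refine ⟨max l1 (2 * m + 1), fun l _ hl ε hε => ?_⟩
  obtain ⟨d, hd1, hd2, hd3⟩ := hl1 l ((le_max_left _ _).trans hl)
  have hlm : 2 * m < l := lt_of_lt_of_le (Nat.lt_succ_self _) ((le_max_right _ _).trans hl)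
  have hX : 0 ≤ c * (c' * Real.exp (-(a * R))) := by positivity
  obtain ⟨Y, κ, hY, hYB, hκ0, hκ, hXκ⟩ := consts hg hD hK haK hX (ε := ε / 2) (by positivity)
  obtain ⟨Lo, hLo⟩ := W504.YM.osc_geo (μ := μ) (L := ld B) (E := Link D l) (hK := hK) (hc := hc)
    hr (w := fun e => (wd a d e)⁻¹) (fun e => inv_pos.2 (wd_pos a d e))
  have hone : ∀ p : YM.Pl D l, (0 : ℝ) ≤ (fun _ => (1 : ℝ)) p ∧ (fun _ => (1 : ℝ)) p ≤ 1 :=
    fun p => ⟨zero_le_one, le_rfl⟩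
  have key := W504.YM.Geo.cov_ev' (S := gT μ B D l hK hc) W504.YM.hasLog_geo
    (W504.YM.wt_geo (w := wd a d) (wd_pos a d)) (V := Vf B g D l fun _ => 1) (Vf_rep _)
    (fun x => W504.YM.VC_nn (fun _ => zero_le_one) (by positivity) x)
    (B := bB D g a) (bB_nonneg hD hg a) (hb1 hD ha hd3 hone) (hb2 hD ha hd3 hone) hY hYB hκ0 hκ
    hLo (W504.YM.apx_geo hN _) (W504.YM.apx_geo hN _) (F := pf B hF l) (F' := pf B hF' l)
    (c := c * 1) (c' := c' * Real.exp (-(a * R))) (by positivity) (by positivity)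
    (fun x => wgrad (fun e he => hm e (Finset.mem_union_left _ he)) hF hlm hcc
      (fun e => (wd a d e)⁻¹) (fun e => (inv_pos.2 (wd_pos a d e)).le) (fun e he => by
        have : d (prj l e) = 0 := hd1 e he
        unfold wd
        rw [this]; simp) x)
    (fun x => wgrad (fun e he => hm e (Finset.mem_union_right _ he)) hF' hlm hcc'
      (wd a d) (fun e => (wd_pos a d e).le) (fun e he => by
        unfold wd
        rw [Real.exp_le_exp]
        have h1 : (R : ℝ) ≤ d (prj l e) := by exact_mod_cast hd2 e he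
        have := mul_le_mul_of_nonneg_left h1 ha
        linarith) x) (ε := ε / 2) (by positivity)
  have hlow := low_ev (μ := μ) (B := B) (D := D) (l := l) (hK := hK) (hc := hc) hN hD hg hgK hr hε
  have hpos := W504.YM.Geo.pos_ev (S := gT μ B D l hK hc) (Vf_rep (g := g) fun _ => 1)
  obtain ⟨τ, k1, k2, k3⟩ := (key.and (hlow.and hpos)).exists
  obtain ⟨k, k1, k2⟩ := (k1.and k2).exists
  have k4 := it_norm (k3 k)
  refine ⟨_, k2, ?_⟩
  have e1 := ex_nf (hK := hK) (hc := hc) k4 (pf B hF l * pf B hF' l)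
  have e2 := ex_nf (hK := hK) (hc := hc) k4 (pf B hF l)
  have e3 := ex_nf (hK := hK) (hc := hc) k4 (pf B hF' l)
  change ex μ _ (fun U => F (per U) * F' (per U)) = _ at e1
  change ex μ _ (fun U => F (per U)) = _ at e2
  change ex μ _ (fun U => F' (per U)) = _ at e3
  rw [e1, e2, e3]
  refine k1.trans ?_
  rw [mul_one]
  calc c * (c' * Real.exp (-(a * R))) / κ + ε / 2 ≤
      (kap D g K a * (c * (c' * Real.exp (-(a * R)))) + ε / 2) + ε / 2 := by linarith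
    _ = _ := by ring

end

end Pool.Agent.W504.YT
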