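import Mathlib
import Pool.Agent.W504.YT.T4
import Pool.Agent.YMI.Bridge
import Pool.Agent.YMI.E1

/-!
# The energy form in infinite volume
-/

open MeasureTheory Matrix Filter Topology
open scoped ContDiff Matrix.Norms.Frobenius
open Pool.Agent.H906R3 Pool.Agent.YMI

namespace Pool.Agent.W504.YT

set_option linter.unusedSectionVars false

noncomputable section

section abs

variable {A : Type*} [CommRing A] [Algebra ℝ A] {P J : Type*} [Fintype J] (S : YM.Fn A P J)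

/-- the energy of `f * w`, when `w` has low energy -/
theorem abs_energy {g : ℝ} {V : A} (hV : ∀ x, 0 ≤ S.ev x V) {E0 : ℝ}
    (hE0 : 0 ≤ E0) (hpos : ∀ u : A, 0 ≤ S.enr g V E0 u u)
    {w : A} (hw1 : S.I (w * w) = 1) {δ : ℝ} (hδ1 : δ ≤ 1)
    (hw : S.enr g V E0 w w ≤ δ) {f : A} {M c : ℝ} (hM : ∀ x, |S.ev x f| ≤ M)
    (hc : ∀ x, S.ev x (YM.Gam S.D f f) ≤ c ^ 2) :
    |S.enr g V E0 (f * w) (f * w) - g ^ 2 / 2 * S.I (YM.Gam S.D f f * (w * w))| ≤
      √((2 * M ^ 4 * (E0 + 1) + 4 * g ^ 2 * M ^ 2 * c ^ 2) * δ) := by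
  obtain ⟨K, hK⟩ : ∃ K, K = 2 * M ^ 4 * (E0 + 1) + 4 * g ^ 2 * M ^ 2 * c ^ 2 := ⟨_, rfl⟩
  rw [← hK]
  have hK0 : 0 ≤ K := by rw [hK]; positivity
  have hww : ∀ x, 0 ≤ S.ev x (w * w) := fun x => by rw [map_mul]; exact mul_self_nonneg _
  have hevF2 : ∀ x, S.ev x f ^ 2 ≤ M ^ 2 := by
    intro x
    have := sq_le_sq' (by linarith [neg_abs_le (S.ev x f), hM x]) ((le_abs_self _).trans (hM x))
    linarith
  have hevF4 : ∀ x, S.ev x f ^ 4 ≤ M ^ 4 := by
    intro x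
    have h1 := pow_le_pow_left₀ (sq_nonneg (S.ev x f)) (hevF2 x) 2
    have h2 : (S.ev x f ^ 2) ^ 2 = S.ev x f ^ 4 := by ring
    have h3 : (M ^ 2) ^ 2 = M ^ 4 := by ring
    rw [← h2, ← h3]
    exact h1
  have hbig : S.enr g V E0 (f * f * w) (f * f * w) ≤ K := by
    have hG : S.I (YM.Gam S.D (f * f * w) (f * f * w)) ≤
        2 * M ^ 4 * S.I (YM.Gam S.D w w) + 8 * M ^ 2 * c ^ 2 := by
      have h1 := S.I_mono (YM.Gam S.D (f * f * w) (f * f * w))
        ((2 * M ^ 4) • YM.Gam S.D w w + (8 * M ^ 2 * c ^ 2) • (w * w)) (fun x => by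
        have hj : ∀ j, S.ev x (S.D j (f * f * w)) ^ 2 ≤
            2 * S.ev x f ^ 4 * S.ev x (S.D j w) ^ 2 +
              8 * (S.ev x f ^ 2 * S.ev x w ^ 2) * S.ev x (S.D j f) ^ 2 := by
          intro j
          have e : S.ev x (S.D j (f * f * w)) = S.ev x f ^ 2 * S.ev x (S.D j w) +
              2 * (S.ev x f * S.ev x w) * S.ev x (S.D j f) := by
            rw [Derivation.leibniz, Derivation.leibniz]
            simp only [smul_eq_mul, map_add, map_mul]; ring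
          rw [e]
          nlinarith [sq_nonneg (S.ev x f ^ 2 * S.ev x (S.D j w) -
              2 * (S.ev x f * S.ev x w) * S.ev x (S.D j f))]
        have hGe : ∀ u : A, S.ev x (YM.Gam S.D u u) = ∑ j, S.ev x (S.D j u) ^ 2 := by
          intro u
          unfold YM.Gam
          rw [map_sum]
          exact Finset.sum_congr rfl fun j _ => by rw [map_mul, sq]
        rw [map_add, map_smul, map_smul, smul_eq_mul, smul_eq_mul, hGe, map_mul _ w w]
        have h2 : ∑ j, S.ev x (S.D j (f * f * w)) ^ 2 ≤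
            2 * S.ev x f ^ 4 * S.ev x (YM.Gam S.D w w) +
              8 * (S.ev x f ^ 2 * S.ev x w ^ 2) * S.ev x (YM.Gam S.D f f) := by
          rw [hGe, hGe, Finset.mul_sum, Finset.mul_sum, ← Finset.sum_add_distrib]
          exact Finset.sum_le_sum fun j _ => hj j
        refine h2.trans ?_
        have hGw0 : 0 ≤ S.ev x (YM.Gam S.D w w) := by
          rw [hGe]; exact Finset.sum_nonneg fun j _ => sq_nonneg _
        have h3 : 2 * S.ev x f ^ 4 * S.ev x (YM.Gam S.D w w) ≤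
            2 * M ^ 4 * S.ev x (YM.Gam S.D w w) :=
          mul_le_mul_of_nonneg_right (by linarith [hevF4 x]) hGw0
        have h4 : 8 * (S.ev x f ^ 2 * S.ev x w ^ 2) * S.ev x (YM.Gam S.D f f) ≤
            8 * (M ^ 2 * S.ev x w ^ 2) * c ^ 2 := by
          have h5 := hc x
          have h6 : 0 ≤ S.ev x (YM.Gam S.D f f) := by
            rw [hGe]; exact Finset.sum_nonneg fun j _ => sq_nonneg _
          refine mul_le_mul ?_ h5 h6 (by positivity)
          have := mul_le_mul_of_nonneg_right (hevF2 x) (sq_nonneg (S.ev x w))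
          linarith
        have h7 : 8 * (M ^ 2 * S.ev x w ^ 2) * c ^ 2 =
            8 * M ^ 2 * c ^ 2 * (S.ev x w * S.ev x w) := by ring
        linarith)
      rw [map_add, map_smul, map_smul, smul_eq_mul, smul_eq_mul, hw1, mul_one] at h1
      exact h1
    have hP : S.I (V * (f * f * w * (f * f * w))) ≤ M ^ 4 * S.I (V * (w * w)) := by
      have h1 := S.I_mono (V * (f * f * w * (f * f * w))) ((M ^ 4) • (V * (w * w)))
        (fun x => by
          rw [map_smul, smul_eq_mul]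
          simp only [map_mul]
          have h2 := mul_le_mul_of_nonneg_right (hevF4 x)
            (mul_nonneg (hV x) (mul_self_nonneg (S.ev x w)))
          have h3 : S.ev x V * (S.ev x f * S.ev x f * S.ev x w * (S.ev x f * S.ev x f * S.ev x w)) =
              S.ev x f ^ 4 * (S.ev x V * (S.ev x w * S.ev x w)) := by ring
          rw [h3]; exact h2)
      rwa [map_smul, smul_eq_mul] at h1
    have h1 := S.enr_eq g V E0 (f * f * w) (f * f * w)
    have h2 := S.enr_eq g V E0 w w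
    rw [hw1, mul_one] at h2
    have h3 : 0 ≤ S.I (f * f * w * (f * f * w)) := S.sq_nonneg' _
    have h4 : 0 ≤ E0 * S.I (f * f * w * (f * f * w)) := mul_nonneg hE0 h3
    have h5 : g ^ 2 / 2 * S.I (YM.Gam S.D (f * f * w) (f * f * w)) ≤
        g ^ 2 / 2 * (2 * M ^ 4 * S.I (YM.Gam S.D w w) + 8 * M ^ 2 * c ^ 2) :=
      mul_le_mul_of_nonneg_left hG (by positivity)
    have h6 : 1 / g ^ 2 * S.I (V * (f * f * w * (f * f * w))) ≤
        1 / g ^ 2 * (M ^ 4 * S.I (V * (w * w))) :=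
      mul_le_mul_of_nonneg_left hP (by positivity)
    have hVw : 0 ≤ S.I (V * (w * w)) := S.I_nonneg fun x => by
      rw [map_mul]; exact mul_nonneg (hV x) (hww x)
    have h7 : 0 ≤ 1 / g ^ 2 * (M ^ 4 * S.I (V * (w * w))) := by positivity
    have h8 : 2 * M ^ 4 * (g ^ 2 / 2 * S.I (YM.Gam S.D w w) + 1 / g ^ 2 * S.I (V * (w * w))) ≤
        2 * M ^ 4 * (E0 + 1) :=
      mul_le_mul_of_nonneg_left (by linarith) (by positivity)
    rw [h1, hK]
    have h9 : g ^ 2 / 2 * (2 * M ^ 4 * S.I (YM.Gam S.D w w) + 8 * M ^ 2 * c ^ 2) +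
        1 / g ^ 2 * (M ^ 4 * S.I (V * (w * w))) =
        2 * M ^ 4 * (g ^ 2 / 2 * S.I (YM.Gam S.D w w) + 1 / g ^ 2 * S.I (V * (w * w))) +
          4 * g ^ 2 * M ^ 2 * c ^ 2 - 1 / g ^ 2 * (M ^ 4 * S.I (V * (w * w))) := by
      ring
    linarith
  have hcross : |S.enr g V E0 (f * f * w) w| ≤ √(K * δ) := by
    refine Real.abs_le_sqrt ?_
    refine (S.enr_cs g V E0 hpos _ _).trans ?_
    exact mul_le_mul hbig hw (hpos w) hK0
  rw [YM.enr_mul_mul2]
  have h1 : S.I (f * w * f * (YM.HH S.D g V w - E0 • w)) = S.enr g V E0 (f * f * w) w := by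
    unfold YM.Fn.enr
    congr 1; ring
  rw [h1]
  have h2 : g ^ 2 / 2 * S.I (YM.Gam S.D f f * (w * w)) + S.enr g V E0 (f * f * w) w -
      g ^ 2 / 2 * S.I (YM.Gam S.D f f * (w * w)) = S.enr g V E0 (f * f * w) w := by ring
  rw [h2]
  exact hcross

end abs

variable {N n D : ℕ} {G : Subgroup (UU N)} [CompactSpace G] [SecondCountableTopology G]
  [MeasurableSpace G] [BorelSpace G] {μ : Measure G} [IsProbabilityMeasure μ] [μ.IsHaarMeasure]
  {B : LieBasis G n} {g : ℝ}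

/-- the square of the gradient of a local observable is a local observable -/
theorem gradSq_local {Λ : Finset (LinkZ D)} {F : (LinkZ D → G) → ℝ} (hF : IsLocal Λ F) :
    IsLocal Λ (gradSq B Λ F) := by
  obtain ⟨f, hf, h⟩ := hF
  refine ⟨fun M => ∑ e ∈ Λ.attach, ∑ a,
      (fderiv ℝ f M (Pi.single e (B.X a * M e))) ^ 2, ?_, fun U => ?_⟩
  · refine ContDiff.sum fun e _ => ContDiff.sum fun a _ => ContDiff.pow ?_ 2
    have h2 : ContDiff ℝ ∞ fun M : Λ → Mt N => B.X a * M e := by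
      have h3 : ContDiff ℝ ∞ fun M : Λ → Mt N => M e := contDiff_apply ℝ (Mt N) e
      exact contDiff_const.mul h3
    have h5 : ContDiff ℝ ∞ fun M : Λ → Mt N => (Pi.single e (B.X a * M e) : Λ → Mt N) := by
      refine contDiff_pi.2 fun e' => ?_
      by_cases he : e' = e
      · subst he
        simpa using h2
      · have h4 : (fun M : Λ → Mt N => (Pi.single e (B.X a * M e) : Λ → Mt N) e') =
            fun _ => 0 := by
          funext M
          exact Pi.single_eq_of_ne he _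
        rw [h4]
        exact contDiff_const
    exact (hf.fderiv_right (m := ∞) (by simp)).clm_apply h5
  · unfold gradSq
    rw [← Finset.sum_attach]
    refine Finset.sum_congr rfl fun e _ => Finset.sum_congr rfl fun a _ => ?_
    rw [dlink_formula B hf h e.1 e.2 a U]

/-- The energies of the local excitations of functions of low energy. -/
theorem energy_exc {l : ℕ} [NeZero l] {m : ℕ} {Λ : Finset (LinkZ D)}
    (hΛ : ∀ e ∈ Λ, ∀ k, |e.1 k| ≤ m) {F : (LinkZ D → G) → ℝ} (hF : IsLocal Λ F)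
    (hl : 2 * m < l)
    (hE0 : ∀ F : (Link D l → G) → ℝ, IsSmooth F → groundEnergy D l B μ g *
      ∫ U, F U ^ 2 ∂(Measure.pi fun _ : Link D l => μ) ≤ energy B μ g F)
    {M c : ℝ} (hM : ∀ U, |F U| ≤ M) (hc : ∀ U, gradSq B Λ F U ≤ c ^ 2) {δ : ℝ}
    (hδ : δ ≤ 1) {Ψ : (Link D l → G) → ℝ} (hΨ : Low B μ g l δ Ψ) :
    |energy B μ g (fun U => F (per U) * Ψ U) - groundEnergy D l B μ g *
      ∫ U, (F (per U) * Ψ U) ^ 2 ∂(Measure.pi fun _ : Link D l => μ) -
      g ^ 2 / 2 * ex μ Ψ (fun U => gradSq B Λ F (per U))| ≤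
      √((2 * M ^ 4 * (groundEnergy D l B μ g + 1) + 4 * g ^ 2 * M ^ 2 * c ^ 2) * δ) := by
  obtain ⟨w, hw⟩ : ∃ w : YM.Sm (ld B) (Link D l), w = ⟨Ψ, hΨ.smooth⟩ := ⟨_, rfl⟩
  obtain ⟨f, hf⟩ : ∃ f : YM.Sm (ld B) (Link D l), f = pf B hF l := ⟨_, rfl⟩
  have hwv : w.1 = Ψ := by rw [hw]
  have hfv : f.1 = fun U => F (per U) := by rw [hf]; rfl
  have hn : (ld B).I μ (w * w) = 1 := by
    rw [← norm_eq, hwv]; exact hΨ.norm
  have hpos : ∀ u : YM.Sm (ld B) (Link D l),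
      0 ≤ (YM.fnE (ld B) μ (Link D l)).enr g (YM.VT (ld B) D l) (groundEnergy D l B μ g) u u := by
    intro u
    rw [enr_eq']
    have h := hE0 u.1 u.2
    rw [norm_eq] at h
    linarith
  have hgrad : ∀ U, (YM.Gam (ld B).Dv f f).1 U = gradSq B Λ F (per U) := by
    intro U
    rw [← per_grad B hΛ hF hl U]
    have h1 : (YM.Gam (ld B).Dv f f).1 U = (ld B).ev U (YM.Gam (ld B).Dv f f) := rfl
    rw [h1]
    unfold YM.Gam
    rw [map_sum, Fintype.sum_prod_type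
      (f := fun j : Link D l × Fin n => (ld B).ev U ((ld B).Dv j f * (ld B).Dv j f))]
    refine Finset.sum_congr rfl fun e _ => Finset.sum_congr rfl fun a _ => ?_
    rw [map_mul, ← sq]
    congr 1
    rw [← hfv]
    exact (dlink_eq B e a f U).symm
  have key := abs_energy (YM.fnE (ld B) μ (Link D l)) (g := g) (V := YM.VT (ld B) D l)
    (fun x => by
      show 0 ≤ (ld B).ev x (YM.VT (ld B) D l)
      rw [YM.VT_apply]
      exact Finset.sum_nonneg fun _ _ => YM.we_nonneg _)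
    (ground_nonneg μ B g) hpos (w := w) hn hδ (by
      rw [enr_eq', hn, mul_one, hwv]
      have := hΨ.low
      linarith) (f := f) (M := M) (c := c) (fun x => by
        show |f.1 x| ≤ M
        rw [hfv]; exact hM _) (fun x => by
        show (YM.Gam (ld B).Dv f f).1 x ≤ c ^ 2
        rw [hgrad]; exact hc _)
  rw [enr_eq', ← norm_eq] at key
  have e1 : (f * w).1 = fun U => F (per U) * Ψ U := by
    funext U
    show f.1 U * w.1 U = _
    rw [hfv, hwv]
  have e2 : (YM.fnE (ld B) μ (Link D l)).I (YM.Gam (YM.fnE (ld B) μ (Link D l)).D f f * (w * w)) =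
      ex μ Ψ (fun U => gradSq B Λ F (per U)) := by
    show (ld B).I μ (YM.Gam (ld B).Dv f f * (w * w)) = _
    rw [YM.I_apply]
    unfold ex
    refine integral_congr_ae (Filter.Eventually.of_forall fun U => ?_)
    show (YM.Gam (ld B).Dv f f).1 U * (w.1 U * w.1 U) = _
    rw [hgrad, hwv]
    simp only [sq]
  rw [e1, e2] at key
  exact key

/-- The energies of the local excitations converge to the energy form of the vacuum. -/
theorem energy_limit {Δ : ℝ} (hΔ : 0 < Δ)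
    (hE0 : ∀ (l : ℕ) [NeZero l] (F : (Link D l → G) → ℝ), IsSmooth F → groundEnergy D l B μ g *
      ∫ U, F U ^ 2 ∂(Measure.pi fun _ : Link D l => μ) ≤ energy B μ g F)
    {ν : Measure (LinkZ D → G)}
    (h1 : ∀ m : ℕ, ∃ (C a : ℝ) (l₀ : ℕ), 0 < a ∧ ∀ (Λ : Finset (LinkZ D))
        (F : (LinkZ D → G) → ℝ) (c M : ℝ),
        (∀ e ∈ Λ, ∀ k, |e.1 k| ≤ m) → IsLocal Λ F → 0 ≤ c → (∀ U, gradSq B Λ F U ≤ c ^ 2) →
        (∀ U, |F U| ≤ M) → ∀ (l : ℕ) [NeZero l], l₀ ≤ l → ∀ (δ : ℝ) (Ψ : (Link D l → G) → ℝ),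
        0 ≤ δ → Low B μ g l δ Ψ →
        |ex μ Ψ (fun U => F (per U)) - ∫ U, F U ∂ν| ≤
          C * c * Real.exp (-(a * l)) + 4 * M * Real.sqrt (δ / Δ))
    (Λ : Finset (LinkZ D)) (F : (LinkZ D → G) → ℝ) (hF : IsLocal Λ F) (ε : ℝ) (hε : 0 < ε) :
    ∃ l₀ : ℕ, ∀ (l : ℕ) [NeZero l], l₀ ≤ l → ∃ δ : ℝ, 0 < δ ∧ ∀ Ψ : (Link D l → G) → ℝ,
      Low B μ g l δ Ψ →
      |energy B μ g (fun U => F (per U) * Ψ U) - groundEnergy D l B μ g *
        ∫ U, (F (per U) * Ψ U) ^ 2 ∂(Measure.pi fun _ : Link D l => μ) -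
        g ^ 2 / 2 * ∫ U, gradSq B Λ F U ∂ν| ≤ ε := by
  have hbd : ∀ f : (LinkZ D → G) → ℝ, Continuous f → ∃ M : ℝ, 0 ≤ M ∧ ∀ U, |f U| ≤ M := by
    intro f hf
    obtain ⟨M, hM⟩ := isCompact_univ.exists_bound_of_continuousOn hf.continuousOn
    exact ⟨max M 0, le_max_right _ _, fun U => (hM U trivial).trans (le_max_left _ _)⟩
  have hG := gradSq_local (B := B) hF
  obtain ⟨m, hm⟩ : ∃ m : ℕ, ∀ e ∈ Λ, ∀ k, |e.1 k| ≤ (m : ℤ) := by
    refine ⟨Λ.sup fun e => Finset.univ.sup fun k => (e.1 k).natAbs, fun e he k => ?_⟩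
    have h1 : (e.1 k).natAbs ≤ Finset.univ.sup fun k => (e.1 k).natAbs :=
      Finset.le_sup (f := fun k => (e.1 k).natAbs) (Finset.mem_univ k)
    have h2 : (Finset.univ.sup fun k => (e.1 k).natAbs) ≤
        Λ.sup fun e => Finset.univ.sup fun k => (e.1 k).natAbs :=
      Finset.le_sup (f := fun e : LinkZ D => Finset.univ.sup fun k => (e.1 k).natAbs) he
    have h3 : |e.1 k| = ((e.1 k).natAbs : ℤ) := Int.abs_eq_natAbs _
    rw [h3]
    exact_mod_cast h1.trans h2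
  obtain ⟨M, hM0, hM⟩ := hbd F (local_cont hF)
  obtain ⟨M1, hM10, hM1⟩ := hbd _ (local_cont hG)
  obtain ⟨M2, hM20, hM2⟩ := hbd _ (local_cont (gradSq_local (B := B) hG))
  obtain ⟨C, a, l1, ha, hCa⟩ := h1 m
  have hexp : Tendsto (fun l : ℕ => g ^ 2 / 2 * (C * √M2 * Real.exp (-(a * (l : ℝ)))))
      atTop (𝓝 (g ^ 2 / 2 * (C * √M2 * 0))) := by
    refine Tendsto.const_mul _ (Tendsto.const_mul _ ?_)
    refine Real.tendsto_exp_neg_atTop_nhds_zero.comp ?_
    exact (tendsto_natCast_atTop_atTop (R := ℝ)).const_mul_atTop ha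
  rw [mul_zero, mul_zero] at hexp
  obtain ⟨l2, hl2⟩ := (hexp.eventually (gt_mem_nhds (show (0 : ℝ) < ε / 3 by positivity))).exists_forall_of_atTop
  refine ⟨max (max l1 l2) (2 * m + 1), fun l _ hl => ?_⟩
  have ha1 : l1 ≤ l := (le_max_left _ _).trans ((le_max_left _ _).trans hl)
  have ha2 : l2 ≤ l := (le_max_right _ _).trans ((le_max_left _ _).trans hl)
  have ha3 : 2 * m < l := lt_of_lt_of_le (Nat.lt_succ_self _) ((le_max_right _ _).trans hl)
  -- the choice of `δ`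
  have c1 := W504.YM.Geo.small (f := fun δ => ε / 3 -
    √((2 * M ^ 4 * (groundEnergy D l B μ g + 1) + 4 * g ^ 2 * M ^ 2 * M1) * δ))
    (by fun_prop) (by simp only [mul_zero, Real.sqrt_zero, sub_zero]; positivity)
  have c2 := W504.YM.Geo.small (f := fun δ => ε / 3 - g ^ 2 / 2 * (4 * M1 * √(δ / Δ)))
    (by fun_prop) (by simp only [zero_div, Real.sqrt_zero, mul_zero, sub_zero]; positivity)
  have c3 := W504.YM.Geo.small (f := fun δ => 1 - δ) (by fun_prop) (by norm_num)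
  have c4 : ∀ᶠ δ in 𝓝[>] (0 : ℝ), 0 < δ := self_mem_nhdsWithin
  obtain ⟨δ, c1, c2, c3, c4⟩ := (c1.and (c2.and (c3.and c4))).exists
  refine ⟨δ, c4, fun Ψ hΨ => ?_⟩
  have k1 := energy_exc (μ := μ) hm hF ha3 (hE0 l) (M := M) (c := √M1) hM (fun U => by
    rw [Real.sq_sqrt hM10]; exact (le_abs_self _).trans (hM1 U)) (by linarith) hΨ
  rw [Real.sq_sqrt hM10] at k1
  have k2 := hCa Λ (gradSq B Λ F) (√M2) M1 hm hG (Real.sqrt_nonneg _) (fun U => by
    rw [Real.sq_sqrt hM20]; exact (le_abs_self _).trans (hM2 U)) hM1 l ha1 δ Ψ c4.le hΨ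
  have k3 := hl2 l ha2
  have hg2 : 0 ≤ g ^ 2 / 2 := by positivity
  obtain ⟨e1, he1⟩ : ∃ e1, e1 = ex μ Ψ (fun U => gradSq B Λ F (per U)) := ⟨_, rfl⟩
  rw [← he1] at k1 k2
  have k4 : |g ^ 2 / 2 * e1 - g ^ 2 / 2 * ∫ U, gradSq B Λ F U ∂ν| ≤
      g ^ 2 / 2 * (C * √M2 * Real.exp (-(a * (l : ℝ))) + 4 * M1 * √(δ / Δ)) := by
    rw [← mul_sub, abs_mul, abs_of_nonneg hg2]
    exact mul_le_mul_of_nonneg_left k2 hg2
  rw [mul_add] at k4
  rw [abs_le] at k1 k4 ⊢
  constructor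
  · linarith [k1.1, k1.2, k4.1, k4.2]
  · linarith [k1.1, k1.2, k4.1, k4.2]

end

end Pool.Agent.W504.YT
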