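import Mathlib
import Pool.Agent.W504.YT.T4

/-!
# Dependence on the volume
-/

open MeasureTheory Matrix Filter Topology
open scoped ContDiff Matrix.Norms.Frobenius
open Pool.Agent.H906R3 Pool.Agent.YMI

namespace Pool.Agent.W504.YT

set_option linter.unusedSectionVars false

noncomputable section

variable {N n D : ℕ} {G : Subgroup (UU N)} [CompactSpace G] [SecondCountableTopology G]
  [MeasurableSpace G] [BorelSpace G] {μ : Measure G} [IsProbabilityMeasure μ] [μ.IsHaarMeasure]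
  {l : ℕ} [NeZero l] {B : LieBasis G n} {g K : ℝ} {hK : 0 < K} {hc : W504.YM.Curv (ld B) K}

lemma Vf_emb {l' R : ℕ} [NeZero l'] (h : l ≤ l') (hR : 2 * R + 3 ≤ l) :
    pl (ld B) (emb l l') (Vf B g D l (ball R)) = Vf B g D l' (ball R) := by
  unfold Vf
  rw [map_smul, pl_VC h hR]

lemma it_emb {l' R : ℕ} [NeZero l'] (h : l ≤ l') (hR : 2 * R + 3 ≤ l) {τ : ℝ} (hτ : 0 ≤ τ)
    (k : ℕ) : it μ B D l' hK hc g (ball R) τ k =
      pl (ld B) (emb l l') (it μ B D l hK hc g (ball R) τ k) := by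
  have h1 := St_pl (L := ld B) μ (hK := hK) (hc := hc) (emb_inj (D := D) h)
    (w := 1 - τ • Vf B g D l (ball R)) (F := 1) (W504.YM.Geo.one_rep (Vf_rep _) τ)
    W504.YM.Geo.Rep.one hτ k
  rw [map_sub, map_one, map_smul, Vf_emb h hR] at h1
  exact h1

lemma avg_emb {l' R m : ℕ} [NeZero l'] (h : l ≤ l') (hR : 2 * R + 3 ≤ l) (hm : 2 * m < l)
    {Λ : Finset (LinkZ D)} (hΛ : ∀ e ∈ Λ, ∀ k, |e.1 k| ≤ m) {F : (LinkZ D → G) → ℝ}
    (hF : IsLocal Λ F) {τ : ℝ} (hτ : 0 ≤ τ) (k : ℕ) :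
    (gT μ B D l' hK hc).avg 1 (it μ B D l' hK hc g (ball R) τ k) (pf B hF l') =
      (gT μ B D l hK hc).avg 1 (it μ B D l hK hc g (ball R) τ k) (pf B hF l) := by
  have h1 : pf B hF l' = pl (ld B) (emb l l') (pf B hF l) := by
    refine YM.ev_ext fun U => ?_
    rw [ev_pl]
    exact (per_emb hΛ hF hm h U).symm
  rw [it_emb h hR hτ, h1]
  unfold W504.YM.Geo.avg
  rw [one_mul, one_mul, one_mul, one_mul, ← map_mul, ← map_mul]
  show (ld B).I μ _ / (ld B).I μ _ = (ld B).I μ _ / (ld B).I μ _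
  rw [I_pl μ (emb_inj h), I_pl μ (emb_inj h)]

/-- the size of the perturbation -/
def alp (N D : ℕ) (g C a : ℝ) (R : ℕ) : ℝ :=
  2 / g ^ 4 * (Real.sqrt N * (2 * ((D : ℝ) - 1)) * Real.sqrt C) * Real.exp (-(a * R / 2))

lemma alp_sq {C a : ℝ} (hC : 0 ≤ C) (R : ℕ) : alp N D g C a R ^ 2 =
    (2 / g ^ 4) ^ 2 * (N * (2 * ((D : ℝ) - 1)) ^ 2 * (C * Real.exp (-(a * R)))) := by
  unfold alp
  have h1 : Real.exp (-(a * R / 2)) ^ 2 = Real.exp (-(a * R)) := by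
    rw [← Real.exp_nat_mul]; congr 1; push_cast; ring
  have h2 : Real.sqrt N ^ 2 = N := Real.sq_sqrt (Nat.cast_nonneg N)
  have h3 : Real.sqrt C ^ 2 = C := Real.sq_sqrt hC
  calc (2 / g ^ 4 * (Real.sqrt N * (2 * ((D : ℝ) - 1)) * Real.sqrt C) *
        Real.exp (-(a * R / 2))) ^ 2
      = (2 / g ^ 4) ^ 2 * (Real.sqrt N ^ 2 * (2 * ((D : ℝ) - 1)) ^ 2 * (Real.sqrt C ^ 2 *
        Real.exp (-(a * R / 2)) ^ 2)) := by ring
    _ = _ := by rw [h1, h2, h3]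

lemma alp_nonneg (hD : 1 ≤ D) (hg : 0 < g) (C a : ℝ) (R : ℕ) : 0 ≤ alp N D g C a R := by
  have hD' : (0 : ℝ) ≤ D - 1 := by
    have : (1 : ℝ) ≤ D := by exact_mod_cast hD
    linarith
  unfold alp
  positivity

/-- comparison of the full system with the system of a ball, on one periodic lattice -/
theorem ball_cmp (hN : 0 < N) (hD : 1 ≤ D) (hg : 0 < g)
    {r : ℝ} (hr : W504.YM.Cn (ld B) r) {a : ℝ} (ha : 0 ≤ a) {Y κ : ℝ} (hY : 0 < Y)
    (hYB : 2 * Y ^ 2 - K * Y + bB D g a < 0) (hκ0 : 0 < κ) (hκ : κ < K - 2 * Y) {C : ℝ}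
    (hC : 0 ≤ C) {m R : ℕ}
    (hfar : ∑ e ∈ (Finset.univ.filter fun e : YM.Ed D l => R ≤ nrm e.1),
      Real.exp (-(a * (nrm e.1 : ℝ))) ^ 2 ≤ C * Real.exp (-(a * R)))
    {Λ : Finset (LinkZ D)} (hΛ : ∀ e ∈ Λ, ∀ k, |e.1 k| ≤ m) {F : (LinkZ D → G) → ℝ}
    (hF : IsLocal Λ F) {c : ℝ} (hc0 : 0 ≤ c) (hcc : ∀ U, gradSq B Λ F U ≤ c ^ 2)
    (hlm : 2 * m < l) {ε : ℝ} (hε : 0 < ε) :
    ∀ᶠ τ in 𝓝[>] (0 : ℝ), ∀ᶠ k in atTop,
      |(gT μ B D l hK hc).avg 1 (it μ B D l hK hc g (fun _ => 1) τ k) (pf B hF l) -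
        (gT μ B D l hK hc).avg 1 (it μ B D l hK hc g (ball R) τ k) (pf B hF l)| ≤
      2 * alp N D g C a R * (c * Real.exp (a * m)) / κ ^ 2 + ε := by
  obtain ⟨d, hd⟩ : ∃ d : Link D l → ℕ, d = fun e => nrm e.1 := ⟨_, rfl⟩
  have hd3 : ∀ p e e', inPl p e → inPl p e' → d e ≤ d e' + 1 := by
    rw [hd]
    exact fun p e e' h h' => nrm_pl p e e' h h'
  obtain ⟨Lo, hLo⟩ := W504.YM.osc_geo (μ := μ) (L := ld B) (E := Link D l) (hK := hK) (hc := hc)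
    hr (w := fun e => (wd a d e)⁻¹) (fun e => inv_pos.2 (wd_pos a d e))
  have hone : ∀ p : YM.Pl D l, (0 : ℝ) ≤ (fun _ => (1 : ℝ)) p ∧ (fun _ => (1 : ℝ)) p ≤ 1 :=
    fun p => ⟨zero_le_one, le_rfl⟩
  have hball : ∀ p : YM.Pl D l, (0 : ℝ) ≤ ball R p ∧ ball R p ≤ 1 := by
    intro p
    unfold ball
    split_ifs
    · exact ⟨zero_le_one, le_rfl⟩
    · exact ⟨le_rfl, zero_le_one⟩
  have hgrad : ∀ x, (gT μ B D l hK hc).ev x ((gT μ B D l hK hc).Gw (fun j => wd a d j.1)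
      (Vf B g D l (fun _ => 1) - Vf B g D l (ball R))) ≤ alp N D g C a R ^ 2 := by
    intro x
    refine (W504.YM.grad_geo (μ := μ) (L := ld B) (hK := hK) (hc := hc) hD (wd a d)
      (c := fun _ => 1) (c' := ball R) (fun p => ?_)
      (Finset.univ.filter fun e : YM.Ed D l => R ≤ nrm e.1) (fun p hp e he => ?_)
      (s := 2 / g ^ 4) x).trans ?_
    · have := hball p
      rw [abs_le]
      constructor <;> linarith [this.1, this.2]
    · rw [Finset.mem_filter]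
      refine ⟨Finset.mem_univ _, ball_out R p (fun h => hp ?_) e he⟩
      unfold ball
      rw [if_pos h]
      exact sub_self _
    · rw [alp_sq hC]
      refine mul_le_mul_of_nonneg_left ?_ (sq_nonneg _)
      refine mul_le_mul_of_nonneg_left ?_ (by positivity)
      rw [hd]
      exact hfar
  exact W504.YM.Geo.cmp_ev' (S := gT μ B D l hK hc) W504.YM.hasLog_geo
    (W504.YM.wt_geo (w := wd a d) (wd_pos a d)) (V := Vf B g D l fun _ => 1)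
    (V' := Vf B g D l (ball R)) (Vf_rep _)
    (fun x => W504.YM.VC_nn (fun _ => zero_le_one) (by positivity) x) (Vf_rep _)
    (fun x => W504.YM.VC_nn (fun p => (hball p).1) (by positivity) x)
    (B := bB D g a) (bB_nonneg hD hg a) (hb1 hD ha hd3 hone) (hb1 hD ha hd3 hball)
    (hb2 hD ha hd3 hball) hY hYB hκ0 hκ
    hLo (W504.YM.apx_geo hN _) (alp_nonneg hD hg C a R) hgrad (F := pf B hF l)
    (c := c * Real.exp (a * m)) (by positivity)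
    (fun x => wgrad hΛ hF hlm hcc
      (fun e => (wd a d e)⁻¹) (fun e => (inv_pos.2 (wd_pos a d e)).le) (fun e he => by
        unfold wd
        rw [← Real.exp_neg, neg_neg, Real.exp_le_exp, hd]
        have h1 : ((nrm (prj l e).1 : ℕ) : ℝ) ≤ m := by exact_mod_cast nrm_prj e m (hΛ e he)
        exact mul_le_mul_of_nonneg_left h1 ha) x) hε

/-- Dependence on the volume. -/
theorem volume (hN : 0 < N) (hD : 1 ≤ D) (hg : 0 < g) (hK : 0 < K)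
    (hc : W504.YM.Curv (ld B) K)
    (hgK : 128 * ((D : ℝ) - 1) < g ^ 4 * K ^ 2) {r : ℝ} (hr : W504.YM.Cn (ld B) r) (m : ℕ) :
    ∃ (C a : ℝ) (l₀ : ℕ), 0 ≤ C ∧ 0 < a ∧ ∀ (Λ : Finset (LinkZ D))
      (F : (LinkZ D → G) → ℝ) (c : ℝ),
      (∀ e ∈ Λ, ∀ k, |e.1 k| ≤ m) → IsLocal Λ F → 0 ≤ c → (∀ U, gradSq B Λ F U ≤ c ^ 2) →
      ∀ (l l' : ℕ) [NeZero l] [NeZero l'], l₀ ≤ l → l ≤ l' → ∀ ε : ℝ, 0 < ε →
      ∃ (Ψ : (Link D l → G) → ℝ) (Φ : (Link D l' → G) → ℝ), Low B μ g l ε Ψ ∧ Low B μ g l' ε Φ ∧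
        |ex μ Ψ (fun U => F (per U)) - ex μ Φ (fun U => F (per U))| ≤
          C * c * Real.exp (-(a * l)) + ε := by
  -- the choice of `a`
  have s1 := W504.YM.Geo.small (f := fun a => g ^ 4 * K ^ 2 - 128 * ((D : ℝ) - 1) * Real.exp a)
    (by fun_prop) (by simp only [Real.exp_zero, mul_one]; linarith)
  have s2 : ∀ᶠ a in 𝓝[>] (0 : ℝ), 0 < a := self_mem_nhdsWithin
  obtain ⟨a, s1, ha⟩ := (s1.and s2).exists
  have haK : 128 * ((D : ℝ) - 1) * Real.exp a < g ^ 4 * K ^ 2 := by linarith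
  obtain ⟨Y, κ, hY, hYB, hκ0, hκ, -⟩ := consts hg hD hK haK (X := 0) le_rfl (ε := 1) one_pos
  obtain ⟨C, hC0, hC⟩ := sum_far (D := D) a ha
  obtain ⟨Q, hQ⟩ : ∃ Q, Q = 2 / g ^ 4 * (Real.sqrt N * (2 * ((D : ℝ) - 1)) * Real.sqrt C) :=
    ⟨_, rfl⟩
  have hD' : (0 : ℝ) ≤ D - 1 := by
    have : (1 : ℝ) ≤ D := by exact_mod_cast hD
    linarith
  have hQ0 : 0 ≤ Q := by rw [hQ]; positivity
  refine ⟨4 * Q * Real.exp a * Real.exp (a * m) / κ ^ 2, a / 4, 2 * m + 3, by positivity,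
    by positivity, ?_⟩
  intro Λ F c hΛ hF hc0 hcc l l' _ _ hl hll ε hε
  obtain ⟨R, hR⟩ : ∃ R, R = (l - 3) / 2 := ⟨_, rfl⟩
  have hR1 : 2 * R + 3 ≤ l := by omega
  have hR2 : l ≤ 2 * R + 4 := by omega
  have b1 := ball_cmp (μ := μ) (hK := hK) (hc := hc) (l := l) hN hD hg hr ha.le hY hYB hκ0 hκ
    hC0 (hC l R) hΛ hF hc0 hcc (by omega) (ε := ε / 2) (by positivity)
  have b2 := ball_cmp (μ := μ) (hK := hK) (hc := hc) (l := l') hN hD hg hr ha.le hY hYB hκ0 hκ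
    hC0 (hC l' R) hΛ hF hc0 hcc (by omega) (ε := ε / 2) (by positivity)
  have l1 := low_ev (μ := μ) (B := B) (D := D) (l := l) (hK := hK) (hc := hc) hN hD hg hgK hr hε
  have l2 := low_ev (μ := μ) (B := B) (D := D) (l := l') (hK := hK) (hc := hc) hN hD hg hgK hr hε
  have p1 := W504.YM.Geo.pos_ev (S := gT μ B D l hK hc) (Vf_rep (g := g) fun _ => 1)
  have p2 := W504.YM.Geo.pos_ev (S := gT μ B D l' hK hc) (Vf_rep (g := g) fun _ => 1)
  have p3 : ∀ᶠ τ in 𝓝[>] (0 : ℝ), 0 < τ := self_mem_nhdsWithin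
  obtain ⟨τ, b1, b2, l1, l2, p1, p2, p3⟩ :=
    (b1.and (b2.and (l1.and (l2.and (p1.and (p2.and p3)))))).exists
  obtain ⟨k, b1, b2, l1, l2⟩ := (b1.and (b2.and (l1.and l2))).exists
  have q1 := it_norm (p1 k)
  have q2 := it_norm (p2 k)
  refine ⟨_, _, l1, l2, ?_⟩
  have e1 := ex_nf (hK := hK) (hc := hc) q1 (pf B hF l)
  have e2 := ex_nf (hK := hK) (hc := hc) q2 (pf B hF l')
  change ex μ _ (fun U => F (per U)) = _ at e1
  change ex μ _ (fun U => F (per U)) = _ at e2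
  rw [e1, e2]
  have e3 := avg_emb (μ := μ) (B := B) (hK := hK) (hc := hc) (g := g) (l := l) hll hR1
    (by omega : 2 * m < l) hΛ hF p3.le k
  rw [e3] at b2
  have hal : 2 * alp N D g C a R * (c * Real.exp (a * m)) / κ ^ 2 ≤
      2 * Q * Real.exp a * Real.exp (a * m) / κ ^ 2 * c * Real.exp (-(a / 4 * l)) := by
    have h1 : Real.exp (-(a * R / 2)) ≤ Real.exp a * Real.exp (-(a / 4 * l)) := by
      rw [← Real.exp_add, Real.exp_le_exp]
      have h2 : (l : ℝ) ≤ 2 * R + 4 := by exact_mod_cast hR2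
      nlinarith
    have h2 : alp N D g C a R = Q * Real.exp (-(a * R / 2)) := by unfold alp; rw [hQ]
    rw [h2]
    have h3 : 0 ≤ 2 * Q * (c * Real.exp (a * m)) / κ ^ 2 := by positivity
    calc 2 * (Q * Real.exp (-(a * R / 2))) * (c * Real.exp (a * m)) / κ ^ 2
        = 2 * Q * (c * Real.exp (a * m)) / κ ^ 2 * Real.exp (-(a * R / 2)) := by ring
      _ ≤ 2 * Q * (c * Real.exp (a * m)) / κ ^ 2 * (Real.exp a * Real.exp (-(a / 4 * l))) :=
          mul_le_mul_of_nonneg_left h1 h3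
      _ = _ := by ring
  have hsum : 4 * Q * Real.exp a * Real.exp (a * m) / κ ^ 2 * c * Real.exp (-(a / 4 * l)) =
      2 * (2 * Q * Real.exp a * Real.exp (a * m) / κ ^ 2 * c * Real.exp (-(a / 4 * l))) := by
    ring
  rw [hsum]
  rw [abs_le] at b1 b2 ⊢
  constructor
  · linarith [b1.1, b1.2, b2.1, b2.2]
  · linarith [b1.1, b1.2, b2.1, b2.2]

end

end Pool.Agent.W504.YT
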