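import Mathlib
import Pool.Agent.W504.YT.T1

/-!
# The gradient of the logarithm of the iterates
-/

open Pool.Agent.H906R3.YM Filter Topology Set

namespace Pool.Agent.W504.YM

noncomputable section

variable {A : Type*} [CommRing A] [Algebra ℝ A] {J X : Type*} [Fintype J] [DecidableEq J]
    [TopologicalSpace X]

namespace Geo

variable {S : Geo A J X} {w : J → ℝ}

lemma heat_one : S.Heat fun _ => (1 : A) := by
  refine ⟨Unit, inferInstance, fun _ => 1, fun _ _ => 1, fun _ _ => 0, ?_, ?_, ?_⟩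
  · intro i s
    exact hasDerivAt_const s 1
  · intro s
    simp
  · intro s
    unfold Lap
    simp

lemma P_one {s : ℝ} (hs : 0 ≤ s) : S.P s (1 : A) = 1 :=
  (P_heat Rep.one).unique heat_one (P_zero Rep.one) hs

lemma It_one {τ : ℝ} (hτ : 0 ≤ τ) (k : ℕ) : (S.St (1 : A) τ)^[k] 1 = 1 := by
  induction k with
  | zero => rfl
  | succ k ih =>
    rw [Function.iterate_succ_apply', ih]
    unfold St
    rw [mul_one, P_one hτ]

lemma Rw_zero (η : J → ℝ) : S.Rw w η (0 : A) = 0 := by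
  unfold Rw Rη
  exact Finset.sum_eq_zero fun k _ => by rw [map_zero, smul_zero]

lemma Gw_zero (x : X) : S.ev x (S.Gw w (0 : A)) = 0 := by
  have e2 : S.Gw w (0 : A) = 0 := by unfold Gw; simp
  rw [e2, map_zero]

lemma HB_zero {B : ℝ} (hB0 : 0 ≤ B) : S.HB w B 0 := by
  intro x η hη
  rw [Rw_zero, Gw_zero]
  positivity

/-- the gradient of the logarithm of the iterates -/
theorem log_grad_ev [CompactSpace X] [Nonempty X] (hlog : S.HasLog) (hw : S.Wt w) {V : A}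
    (hV : S.Rep V) (hV0 : ∀ x, 0 ≤ S.ev x V)
    {B : ℝ} (hB0 : 0 ≤ B) (hB : S.HB w B V) {Y κ : ℝ} (hY : 0 < Y)
    (hYB : 2 * Y ^ 2 - S.K * Y + B < 0) (hκ0 : 0 < κ) (hκ : κ < S.K - 2 * Y)
    {α : ℝ} (hα0 : 0 ≤ α) (hG : ∀ x, S.ev x (S.Gw w V) ≤ α ^ 2) {t : ℝ} (ht0 : 0 < t) :
    ∀ᶠ τ in 𝓝[>] (0 : ℝ), ∀ k x, S.ev x (S.Gw w (S.Itr V τ k)) ≤
      ((α + t) / κ) ^ 2 * S.ev x (S.Itr V τ k) ^ 2 := by
  obtain ⟨δ, hδ⟩ : ∃ δ, δ = -(2 * Y ^ 2 - S.K * Y + B) := ⟨_, rfl⟩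
  have hδ0 : 0 < δ := by rw [hδ]; linarith
  obtain ⟨b1, hb1⟩ : ∃ b1, b1 = B + δ / 4 := ⟨_, rfl⟩
  obtain ⟨b, hb⟩ : ∃ b, b = B + δ / 2 := ⟨_, rfl⟩
  have hBb : B < b1 := by rw [hb1]; linarith
  have hz0 : S.Rep (0 : A) := by
    have := (Rep.one (S := S)).smul 0
    simpa using this
  have g1 := good_mult (w := w) hV hV0 hB0 hB hBb
  have g1' := good_mult (S := S) (w := w) hz0 (fun x => by rw [map_zero]) hB0 (HB_zero hB0) hBb
  have g1i := good_mult (S := S) (w := fun j => (w j)⁻¹) hz0 (fun x => by rw [map_zero]) hB0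
    (HB_zero hB0) hBb
  have g2 := bar_ev (S := S) (B := B) (b := b) (b1 := b1) (Y := Y) (by rw [hb1]; linarith)
    (by rw [hb, hb1]; linarith) hY (by rw [hb, hδ]; linarith)
  have g3 := zmult_ev (S := S) hw hV0 (V' := 0) (fun x => by rw [map_zero]) hα0 (α' := α + t)
    (by linarith) (by simpa using hG)
  have c4 := small (f := fun τ => S.K - 2 * (Y + b * τ) - κ) (by fun_prop)
    (by simp only [mul_zero, add_zero]; linarith)
  have c8 : ∀ᶠ τ in 𝓝[>] (0 : ℝ), 0 < τ := self_mem_nhdsWithin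
  filter_upwards [g1, g1', g1i, g2, g3, c4, c8] with τ g1 g1' g1i g2 g3 c4 c8 k x
  have hz : 0 < (α + t) / κ := div_pos (by linarith) hκ0
  have hzz : ((α + t) / κ + τ * (α + t)) * Real.exp (-(κ * τ)) ≤ (α + t) / κ := by
    have h1 : (α + t) / κ + τ * (α + t) = (α + t) / κ * (1 + κ * τ) := by field_simp
    have h2 := Real.add_one_le_exp (κ * τ)
    have h3 : Real.exp (κ * τ) * Real.exp (-(κ * τ)) = 1 := by
      rw [← Real.exp_add]; simp
    rw [h1]
    calc (α + t) / κ * (1 + κ * τ) * Real.exp (-(κ * τ))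
        ≤ (α + t) / κ * Real.exp (κ * τ) * Real.exp (-(κ * τ)) := by
          refine mul_le_mul_of_nonneg_right ?_ (Real.exp_pos _).le
          exact mul_le_mul_of_nonneg_left (by linarith) hz.le
      _ = (α + t) / κ := by rw [mul_assoc, h3, mul_one]
  have hone : ∀ v : J → ℝ, S.Good v Y 1 := fun v => good_one v Y
  have h00 : S.Cmp w Y 1 1 1 1 ((α + t) / κ) 1 1 := by
    refine ⟨hone w, hone w, hone _, Rep.one, Rep.one, ?_, ?_, ?_⟩
    · intro p p' hp hp' x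
      rw [ev_Zw]
      refine lt_of_eq_of_lt (Finset.sum_eq_zero fun j _ => ?_) (by positivity)
      unfold Z
      rw [Derivation.map_one_eq_zero, mul_zero, mul_zero, sub_zero, map_zero]; ring
    · intro p' hp' x
      rw [one_mul] at hp'
      rw [hp', mul_one, ev_Gw]
      refine lt_of_eq_of_lt (Finset.sum_eq_zero fun j _ => ?_) (by positivity)
      rw [Derivation.map_one_eq_zero, map_zero]; ring
    · intro p p' hp hp' x
      rw [one_mul] at hp hp'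
      rw [hp, hp', sub_self, abs_zero]; exact one_pos
  have hr1 := Cmp.steps hlog hw g2 (κ := κ) (by linarith) hκ0.le g1 g1' g1i
    (mul_nonneg c8.le (by linarith : (0 : ℝ) ≤ α + t)) g3 (z := fun _ => (α + t) / κ)
    (fun _ => hz) one_pos (fun _ => hzz) h00 k
  have e0 : (1 - τ • (0 : A)) = 1 := by rw [smul_zero, sub_zero]
  rw [e0, It_one c8.le] at hr1
  obtain ⟨p, hp⟩ := S.inv _ hr1.g.pos
  have h1 := hr1.zz p 1 hp (one_mul 1) x
  change S.ev x (S.Zw w p (S.Itr V τ k) 1 1) < _ at h1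
  change S.Itr V τ k * p = 1 at hp
  obtain ⟨ψ, hψ⟩ : ∃ ψ, ψ = S.Itr V τ k := ⟨_, rfl⟩
  rw [← hψ] at h1 hp ⊢
  have hpx : S.ev x ψ * S.ev x p = 1 := by rw [← map_mul, hp, map_one]
  have h2 : S.ev x (S.Gw w ψ) = S.ev x ψ ^ 2 * S.ev x (S.Zw w p ψ 1 1) := by
    rw [ev_Gw, ev_Zw, Finset.mul_sum]
    refine Finset.sum_congr rfl fun j _ => ?_
    unfold Z
    rw [Derivation.map_one_eq_zero, mul_zero, sub_zero, map_mul]
    have : S.ev x ψ ^ 2 * (w j ^ 2 * (S.ev x p * S.ev x (S.D j ψ)) ^ 2) =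
        (S.ev x ψ * S.ev x p) ^ 2 * (w j ^ 2 * S.ev x (S.D j ψ) ^ 2) := by ring
    rw [this, hpx]; ring
  rw [h2, mul_comm]
  exact mul_le_mul_of_nonneg_right h1.le (sq_nonneg _)

end Geo

end

end Pool.Agent.W504.YM
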