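import Mathlib
import Pool.Agent.W504.YT.T5
import Pool.Agent.W504.YT.T8
import Pool.Agent.YMI.E1

/-!
# Bounds for the kinetic energy of one link
-/

open MeasureTheory Matrix Filter Topology
open scoped ContDiff Matrix.Norms.Frobenius
open Pool.Agent.H906R3 Pool.Agent.YMI

namespace Pool.Agent.W504.YT

set_option linter.unusedSectionVars false

noncomputable section

variable {N n D : ℕ} {G : Subgroup (UU N)} [CompactSpace G] [SecondCountableTopology G]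
  [MeasurableSpace G] [BorelSpace G] {μ : Measure G} [IsProbabilityMeasure μ] [μ.IsHaarMeasure]
  {l : ℕ} [NeZero l] {B : LieBasis G n} {g K : ℝ} {hK : 0 < K} {hc : W504.YM.Curv (ld B) K}

lemma Vf_zero : Vf B g D l (fun _ => 0) = 0 := by
  unfold Vf VC
  simp

/-- Functions of low energy with a bound for the logarithmic derivatives. -/
theorem kin (hN : 0 < N) (hD : 1 ≤ D) (hg : 0 < g) (hK : 0 < K)
    (hc : W504.YM.Curv (ld B) K)
    (hgK : 128 * ((D : ℝ) - 1) < g ^ 4 * K ^ 2) {r : ℝ} (hr : W504.YM.Cn (ld B) r) (m : ℕ) :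
    ∃ C : ℝ, 0 ≤ C ∧ ∀ (l : ℕ) [NeZero l] (ε : ℝ), 0 < ε → ∃ Ψ : (Link D l → G) → ℝ,
      Low B μ g l ε Ψ ∧ ∀ e : LinkZ D, (∀ k, |e.1 k| ≤ m) → ∀ a U,
        |dlink B (cst l e) a Ψ U| ≤ C * |Ψ U| := by
  -- the choice of `a`
  have s1 := W504.YM.Geo.small (f := fun a => g ^ 4 * K ^ 2 - 128 * ((D : ℝ) - 1) * Real.exp a)
    (by fun_prop) (by simp only [Real.exp_zero, mul_one]; linarith)
  have s2 : ∀ᶠ a in 𝓝[>] (0 : ℝ), 0 < a := self_mem_nhdsWithin
  obtain ⟨a, s1, ha⟩ := (s1.and s2).exists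
  have haK : 128 * ((D : ℝ) - 1) * Real.exp a < g ^ 4 * K ^ 2 := by linarith
  obtain ⟨Y, κ, hY, hYB, hκ0, hκ, -⟩ := consts hg hD hK haK (X := 0) le_rfl (ε := 1) one_pos
  obtain ⟨C, hC0, hC⟩ := sum_far (D := D) a ha
  have hα0 := alp_nonneg (N := N) hD hg C a 0
  refine ⟨(alp N D g C a 0 + 1) / κ * Real.exp (a * m), by positivity, fun l _ ε hε => ?_⟩
  obtain ⟨d, hd⟩ : ∃ d : Link D l → ℕ, d = fun e => nrm e.1 := ⟨_, rfl⟩
  have hd3 : ∀ p e e', inPl p e → inPl p e' → d e ≤ d e' + 1 := by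
    rw [hd]
    exact fun p e e' h h' => nrm_pl p e e' h h'
  have hone : ∀ p : YM.Pl D l, (0 : ℝ) ≤ (fun _ => (1 : ℝ)) p ∧ (fun _ => (1 : ℝ)) p ≤ 1 :=
    fun p => ⟨zero_le_one, le_rfl⟩
  have hgrad : ∀ x, (gT μ B D l hK hc).ev x ((gT μ B D l hK hc).Gw (fun j => wd a d j.1)
      (Vf B g D l (fun _ => 1))) ≤ alp N D g C a 0 ^ 2 := by
    intro x
    have h0 : Vf B g D l (fun _ => 1) = Vf B g D l (fun _ => 1) - Vf B g D l (fun _ => 0) := by
      rw [Vf_zero, sub_zero]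
    rw [h0]
    refine (W504.YM.grad_geo (μ := μ) (L := ld B) (hK := hK) (hc := hc) hD (wd a d)
      (c := fun _ => 1) (c' := fun _ => 0) (fun p => by norm_num)
      (Finset.univ.filter fun e : YM.Ed D l => 0 ≤ nrm e.1) (fun p hp e he => ?_)
      (s := 2 / g ^ 4) x).trans ?_
    · rw [Finset.mem_filter]
      exact ⟨Finset.mem_univ _, Nat.zero_le _⟩
    · rw [alp_sq hC0]
      refine mul_le_mul_of_nonneg_left ?_ (sq_nonneg _)
      refine mul_le_mul_of_nonneg_left ?_ (by positivity)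
      have := hC l 0
      rw [hd]
      exact_mod_cast this
  have key := W504.YM.Geo.log_grad_ev (S := gT μ B D l hK hc) W504.YM.hasLog_geo
    (W504.YM.wt_geo (w := wd a d) (wd_pos a d)) (V := Vf B g D l fun _ => 1) (Vf_rep _)
    (fun x => W504.YM.VC_nn (fun _ => zero_le_one) (by positivity) x)
    (B := bB D g a) (bB_nonneg hD hg a) (hb1 hD ha.le hd3 hone) hY hYB hκ0 hκ hα0 hgrad
    (t := 1) one_pos
  have hlow := low_ev (μ := μ) (B := B) (D := D) (l := l) (hK := hK) (hc := hc) hN hD hg hgK hr hε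
  obtain ⟨τ, k1, k2⟩ := (key.and hlow).exists
  obtain ⟨k, k2⟩ := k2.exists
  refine ⟨_, k2, fun e he b U => ?_⟩
  have k3 := k1 k U
  obtain ⟨ψ, hψ⟩ : ∃ ψ, ψ = it μ B D l hK hc g (fun _ => 1) τ k := ⟨_, rfl⟩
  change (gT μ B D l hK hc).ev U ((gT μ B D l hK hc).Gw (fun j => wd a d j.1)
    (it μ B D l hK hc g (fun _ => 1) τ k)) ≤ _ *
    (gT μ B D l hK hc).ev U (it μ B D l hK hc g (fun _ => 1) τ k) ^ 2 at k3
  rw [← hψ] at k3 ⊢
  obtain ⟨s, hs⟩ : ∃ s : ℝ, s = (Real.sqrt ((ld B).I μ (ψ * ψ)))⁻¹ := ⟨_, rfl⟩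
  have e1 : nf μ ψ = s • ψ := by unfold nf; rw [← hs]
  have h1 : dlink B (cst l e) b (nf μ ψ).1 U = s * ((ld B).Dv (cst l e, b) ψ).1 U := by
    rw [dlink_eq, e1]
    show (ld B).ev U ((ld B).Dv (cst l e, b) (s • ψ)) = _
    rw [Derivation.map_smul, map_smul, smul_eq_mul]
    rfl
  have h2 : (nf μ ψ).1 U = s * ψ.1 U := by rw [e1]; rfl
  rw [h1, h2, abs_mul, abs_mul]
  have h3 : |((ld B).Dv (cst l e, b) ψ).1 U| ≤
      (alp N D g C a 0 + 1) / κ * Real.exp (a * m) * |ψ.1 U| := by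
    rw [W504.YM.Geo.ev_Gw] at k3
    have h4 : wd a d (cst l e) ^ 2 * ((ld B).Dv (cst l e, b) ψ).1 U ^ 2 ≤
        ((alp N D g C a 0 + 1) / κ) ^ 2 * ψ.1 U ^ 2 :=
      (Finset.single_le_sum (f := fun j : Link D l × Fin n => wd a d j.1 ^ 2 *
        ((ld B).Dv j ψ).1 U ^ 2) (fun j _ => by positivity)
        (Finset.mem_univ (cst l e, b))).trans k3
    have h5 : Real.exp (-(a * m)) ≤ wd a d (cst l e) := by
      unfold wd
      rw [Real.exp_le_exp, hd]
      have h1 : ((nrm (cst l e).1 : ℕ) : ℝ) ≤ m := by exact_mod_cast nrm_prj e m he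
      have := mul_le_mul_of_nonneg_left h1 ha.le
      simp only
      linarith
    have h6 : (Real.exp (-(a * m)) * |((ld B).Dv (cst l e, b) ψ).1 U|) ^ 2 ≤
        ((alp N D g C a 0 + 1) / κ * |ψ.1 U|) ^ 2 := by
      rw [mul_pow, mul_pow, sq_abs, sq_abs]
      refine le_trans ?_ h4
      exact mul_le_mul_of_nonneg_right (pow_le_pow_left₀ (Real.exp_pos _).le h5 2) (sq_nonneg _)
    have h7 := abs_le_of_sq_le_sq' h6 (by positivity)
    have h8 := mul_le_mul_of_nonneg_left h7.2 (Real.exp_pos (a * m)).le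
    have h9 : Real.exp (a * m) * Real.exp (-(a * m)) = 1 := by
      rw [← Real.exp_add]; simp
    calc |((ld B).Dv (cst l e, b) ψ).1 U|
        = Real.exp (a * m) * Real.exp (-(a * m)) * |((ld B).Dv (cst l e, b) ψ).1 U| := by
          rw [h9, one_mul]
      _ = Real.exp (a * m) * (Real.exp (-(a * m)) * |((ld B).Dv (cst l e, b) ψ).1 U|) := by ring
      _ ≤ _ := h8
      _ = _ := by ring
  calc |s| * |((ld B).Dv (cst l e, b) ψ).1 U| ≤
      |s| * ((alp N D g C a 0 + 1) / κ * Real.exp (a * m) * |ψ.1 U|) :=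
        mul_le_mul_of_nonneg_left h3 (abs_nonneg _)
    _ = _ := by ring

end

end Pool.Agent.W504.YT
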