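import Mathlib
import Pool.Agent.W504.YT.T6
import Pool.Agent.W504.YT.T9
import Pool.Agent.YMI.Asm
import Pool.Agent.YMI.SW

/-!
# Integration by parts in infinite volume
-/

open MeasureTheory Matrix Filter Topology
open scoped ContDiff Matrix.Norms.Frobenius
open Pool.Agent.H906R3 Pool.Agent.YMI

namespace Pool.Agent.W504.YT

set_option linter.unusedSectionVars false

noncomputable section

variable {N n D : ℕ} {G : Subgroup (UU N)} [CompactSpace G] [SecondCountableTopology G]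
  [MeasurableSpace G] [BorelSpace G] {μ : Measure G} [IsProbabilityMeasure μ] [μ.IsHaarMeasure]
  {B : LieBasis G n} {g : ℝ}

/-- integration by parts on the periodic lattice -/
theorem ibp_torus {l : ℕ} [NeZero l] {m : ℕ} {Λ : Finset (LinkZ D)}
    (hΛ : ∀ e ∈ Λ, ∀ k, |e.1 k| ≤ m) {F : (LinkZ D → G) → ℝ} (hF : IsLocal Λ F) (hl : 2 * m < l)
    {e : LinkZ D} (he : e ∈ Λ) (a : Fin n) {C δ : ℝ} (hC0 : 0 ≤ C) {Ψ : (Link D l → G) → ℝ}
    (hΨ : Low B μ g l δ Ψ) (hC : ∀ U, |dlink B (cst l e) a Ψ U| ≤ C * |Ψ U|) :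
    |ex μ Ψ (fun U => dlink B e a F (per U))| ≤
      2 * C * Real.sqrt (ex μ Ψ (fun U => F (per U) ^ 2)) := by
  obtain ⟨w, hw⟩ : ∃ w : YM.Sm (ld B) (Link D l), w = ⟨Ψ, hΨ.smooth⟩ := ⟨_, rfl⟩
  obtain ⟨f, hf⟩ : ∃ f : YM.Sm (ld B) (Link D l), f = pf B hF l := ⟨_, rfl⟩
  have hwv : w.1 = Ψ := by rw [hw]
  have hfv : f.1 = fun U => F (per U) := by rw [hf]; rfl
  obtain ⟨j, hj⟩ : ∃ j : Link D l × Fin n, j = (cst l e, a) := ⟨_, rfl⟩
  have hn : (ld B).I μ (w * w) = 1 := by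
    rw [← norm_eq, hwv]; exact hΨ.norm
  have h0 : (ld B).I μ ((ld B).Dv j (f * (w * w))) = 0 := YM.I_D_zero μ _ _
  have h1 : (ld B).Dv j (f * (w * w)) = (ld B).Dv j f * (w * w) +
      (2 : ℝ) • ((f * w) * (ld B).Dv j w) := by
    rw [Derivation.leibniz, Derivation.leibniz]
    simp only [smul_eq_mul]
    rw [two_smul]
    ring
  rw [h1, map_add, map_smul, smul_eq_mul] at h0
  have e1 : ex μ Ψ (fun U => dlink B e a F (per U)) = (ld B).I μ ((ld B).Dv j f * (w * w)) := by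
    rw [YM.I_apply]
    unfold ex
    refine integral_congr_ae (Filter.Eventually.of_forall fun U => ?_)
    show dlink B e a F (per U) * Ψ U ^ 2 = ((ld B).Dv j f).1 U * (w.1 U * w.1 U)
    rw [hwv, hj, ← dlink_eq, hfv, dlink_in B hΛ hF hl U e he a, sq]
  have e2 : ex μ Ψ (fun U => F (per U) ^ 2) = (ld B).I μ (f * w * (f * w)) := by
    rw [YM.I_apply]
    unfold ex
    refine integral_congr_ae (Filter.Eventually.of_forall fun U => ?_)
    show F (per U) ^ 2 * Ψ U ^ 2 = f.1 U * w.1 U * (f.1 U * w.1 U)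
    rw [hwv, hfv]
    ring
  have h2 := YM.I_cs1 μ (f * w) ((ld B).Dv j w)
  have h3 : (ld B).I μ ((ld B).Dv j w * (ld B).Dv j w) ≤ C ^ 2 := by
    have h4 := YM.I_mono (μ := μ) (F := (ld B).Dv j w * (ld B).Dv j w)
      (H := (C ^ 2) • (w * w)) (fun U => by
        rw [map_smul, map_mul, map_mul, smul_eq_mul]
        have h5 := hC U
        have h6 : dlink B (cst l e) a Ψ U = (ld B).ev U ((ld B).Dv j w) := by
          rw [← hwv, dlink_eq, hj]; rfl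
        have h7 : Ψ U = (ld B).ev U w := by rw [← hwv]; rfl
        rw [h6, h7] at h5
        have h8 := pow_le_pow_left₀ (abs_nonneg _) h5 2
        rw [mul_pow, sq_abs, sq_abs] at h8
        linarith)
    rwa [map_smul, smul_eq_mul, hn, mul_one] at h4
  obtain ⟨x, hx⟩ : ∃ x, x = (ld B).I μ (f * w * (ld B).Dv j w) := ⟨_, rfl⟩
  obtain ⟨y, hy⟩ : ∃ y, y = (ld B).I μ (f * w * (f * w)) := ⟨_, rfl⟩
  have hy0 : 0 ≤ y := by rw [hy]; exact YM.I_sq_nonneg μ _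
  rw [e1, e2, ← hy]
  rw [← hx] at h0 h2
  rw [← hy] at h2
  have h4 : (ld B).I μ ((ld B).Dv j f * (w * w)) = -(2 * x) := by linarith
  rw [h4, abs_neg, abs_mul, abs_two, mul_assoc]
  refine mul_le_mul_of_nonneg_left ?_ zero_le_two
  have h5 : x ^ 2 ≤ (C * Real.sqrt y) ^ 2 := by
    rw [mul_pow, Real.sq_sqrt hy0]
    refine h2.trans ?_
    rw [mul_comm]
    exact mul_le_mul_of_nonneg_right h3 hy0
  exact abs_le_of_sq_le_sq h5 (mul_nonneg hC0 (Real.sqrt_nonneg _))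

/-- the convergence of the expectations -/
def LimP (B : LieBasis G n) (μ : Measure G) (g Δ : ℝ) (ν : Measure (LinkZ D → G)) : Prop :=
  ∀ m : ℕ, ∃ (C a : ℝ) (l₀ : ℕ), 0 < a ∧ ∀ (Λ : Finset (LinkZ D))
    (F : (LinkZ D → G) → ℝ) (c M : ℝ),
    (∀ e ∈ Λ, ∀ k, |e.1 k| ≤ m) → IsLocal Λ F → 0 ≤ c → (∀ U, gradSq B Λ F U ≤ c ^ 2) →
    (∀ U, |F U| ≤ M) → ∀ (l : ℕ) [NeZero l], l₀ ≤ l → ∀ (δ : ℝ) (Ψ : (Link D l → G) → ℝ),
    0 ≤ δ → Low B μ g l δ Ψ →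
    |ex μ Ψ (fun U => F (per U)) - ∫ U, F U ∂ν| ≤
      C * c * Real.exp (-(a * l)) + 4 * M * Real.sqrt (δ / Δ)

theorem loc_conv {Δ : ℝ} {ν : Measure (LinkZ D → G)} (h1 : LimP B μ g Δ ν)
    {Λ : Finset (LinkZ D)} {F : (LinkZ D → G) → ℝ} (hF : IsLocal Λ F) {η : ℝ} (hη : 0 < η) :
    ∃ l₀ : ℕ, ∀ (l : ℕ) [NeZero l], l₀ ≤ l → ∃ δ : ℝ, 0 < δ ∧ ∀ Ψ : (Link D l → G) → ℝ,
      Low B μ g l δ Ψ → |ex μ Ψ (fun U => F (per U)) - ∫ U, F U ∂ν| ≤ η := by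
  obtain ⟨m, hm⟩ := exists_box Λ
  obtain ⟨M, hM0, hM⟩ := exists_bd (G := G) (local_cont hF)
  obtain ⟨M1, hM10, hM1⟩ := exists_bd (G := G) (gradSq_cont B hF)
  obtain ⟨C, a, l1, ha, hCa⟩ := h1 m
  have hexp : Tendsto (fun l : ℕ => C * √M1 * Real.exp (-(a * (l : ℝ))))
      atTop (𝓝 (C * √M1 * 0)) := by
    refine Tendsto.const_mul _ ?_
    refine Real.tendsto_exp_neg_atTop_nhds_zero.comp ?_
    exact (tendsto_natCast_atTop_atTop (R := ℝ)).const_mul_atTop ha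
  rw [mul_zero] at hexp
  obtain ⟨l2, hl2⟩ := (hexp.eventually (gt_mem_nhds (show (0 : ℝ) < η / 2 by positivity))).exists_forall_of_atTop
  refine ⟨max l1 l2, fun l _ hl => ?_⟩
  have c2 := W504.YM.Geo.small (f := fun δ => η / 2 - 4 * M * √(δ / Δ))
    (by fun_prop) (by simp only [zero_div, Real.sqrt_zero, mul_zero, sub_zero]; positivity)
  have c4 : ∀ᶠ δ in 𝓝[>] (0 : ℝ), 0 < δ := self_mem_nhdsWithin
  obtain ⟨δ, c2, c4⟩ := (c2.and c4).exists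
  refine ⟨δ, c4, fun Ψ hΨ => ?_⟩
  have k2 := hCa Λ F (√M1) M hm hF (Real.sqrt_nonneg _) (fun U => by
    rw [Real.sq_sqrt hM10]; exact (le_abs_self _).trans (hM1 U)) hM l
    ((le_max_left _ _).trans hl) δ Ψ c4.le hΨ
  have k3 := hl2 l ((le_max_right _ _).trans hl)
  linarith

/-- functions of low energy with a bound for the logarithmic derivatives -/
def KinP (D : ℕ) (B : LieBasis G n) (μ : Measure G) (g : ℝ) (m : ℕ) (C : ℝ) : Prop :=
  0 ≤ C ∧ ∀ (l : ℕ) [NeZero l] (ε : ℝ), 0 < ε → ∃ Ψ : (Link D l → G) → ℝ,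
      Low B μ g l ε Ψ ∧ ∀ e : LinkZ D, (∀ k, |e.1 k| ≤ m) → ∀ a U,
        |dlink B (cst l e) a Ψ U| ≤ C * |Ψ U|

/-- integration by parts in infinite volume -/
theorem ibp_limit {Δ : ℝ} {ν : Measure (LinkZ D → G)} (h1 : LimP B μ g Δ ν) {m : ℕ} {C : ℝ}
    (hk : KinP D B μ g m C) {e : LinkZ D} (he : ∀ k, |e.1 k| ≤ m) (a : Fin n)
    {Λ : Finset (LinkZ D)} {F : (LinkZ D → G) → ℝ} (hF : IsLocal Λ F) :
    |∫ U, dlink B e a F U ∂ν| ≤ 2 * C * Real.sqrt (∫ U, F U ^ 2 ∂ν) := by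
  classical
  by_cases heΛ : e ∈ Λ
  swap
  · simp only [dlink_zero_local B hF heΛ a, integral_zero, abs_zero]
    have := hk.1
    positivity
  have hF1 := hF.dlink B e a
  have hF2 : IsLocal (Λ ∪ Λ) (fun U => F U * F U) := hF.mul hF
  rw [Finset.union_self] at hF2
  have hF3 : (fun U => F U * F U) = fun U => F U ^ 2 := by funext U; rw [sq]
  rw [hF3] at hF2
  obtain ⟨m', hm'⟩ := exists_box Λ
  have main : ∀ η : ℝ, 0 < η → |∫ U, dlink B e a F U ∂ν| - η ≤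
      2 * C * Real.sqrt (∫ U, F U ^ 2 ∂ν + η) := by
    intro η hη
    obtain ⟨l1, hl1⟩ := loc_conv h1 hF1 hη
    obtain ⟨l2, hl2⟩ := loc_conv h1 hF2 hη
    obtain ⟨l, hl⟩ : ∃ l, l = max (max l1 l2) (2 * m' + 1) := ⟨_, rfl⟩
    have ha1 : l1 ≤ l := hl ▸ (le_max_left _ _).trans (le_max_left _ _)
    have ha2 : l2 ≤ l := hl ▸ (le_max_right _ _).trans (le_max_left _ _)
    have ha3 : 2 * m' < l := hl ▸ lt_of_lt_of_le (Nat.lt_succ_self _) (le_max_right _ _)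
    have : NeZero l := ⟨by omega⟩
    obtain ⟨δ1, hδ1, k1⟩ := hl1 l ha1
    obtain ⟨δ2, hδ2, k2⟩ := hl2 l ha2
    obtain ⟨Ψ, hΨ, hΨ2⟩ := hk.2 l (min δ1 δ2) (lt_min hδ1 hδ2)
    have q1 := k1 Ψ (hΨ.mono (min_le_left _ _))
    have q2 := k2 Ψ (hΨ.mono (min_le_right _ _))
    have q3 := ibp_torus hm' hF ha3 heΛ a hk.1 hΨ (hΨ2 e he a)
    have q4 : Real.sqrt (ex μ Ψ (fun U => F (per U) ^ 2)) ≤
        Real.sqrt (∫ U, F U ^ 2 ∂ν + η) := Real.sqrt_le_sqrt (by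
      have := (abs_le.1 q2).2
      linarith)
    have q5 := mul_le_mul_of_nonneg_left q4 (show 0 ≤ 2 * C by linarith [hk.1])
    have q6 : |∫ U, dlink B e a F U ∂ν| ≤ |ex μ Ψ (fun U => dlink B e a F (per U))| + η := by
      have := abs_sub_abs_le_abs_sub (∫ U, dlink B e a F U ∂ν)
        (ex μ Ψ (fun U => dlink B e a F (per U)))
      rw [abs_sub_comm] at this
      linarith
    linarith
  have hlim1 : Tendsto (fun η : ℝ => |∫ U, dlink B e a F U ∂ν| - η) (𝓝[>] 0)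
      (𝓝 (|∫ U, dlink B e a F U ∂ν| - 0)) := by
    refine Tendsto.mono_left ?_ nhdsWithin_le_nhds
    exact Continuous.tendsto (by fun_prop) 0
  have hlim2 : Tendsto (fun η : ℝ => 2 * C * Real.sqrt (∫ U, F U ^ 2 ∂ν + η)) (𝓝[>] 0)
      (𝓝 (2 * C * Real.sqrt (∫ U, F U ^ 2 ∂ν + 0))) := by
    refine Tendsto.mono_left ?_ nhdsWithin_le_nhds
    exact Continuous.tendsto (by fun_prop) 0
  have := le_of_tendsto_of_tendsto hlim1 hlim2 (by
    filter_upwards [self_mem_nhdsWithin] with η hη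
    exact main η hη)
  simpa using this

end

end Pool.Agent.W504.YT
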