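import Mathlib
import Pool.Agent.W504.YT.T10
import Pool.Agent.YMI.SW
import Pool.Agent.YMI.FR

/-!
# The Hamiltonian in infinite volume
-/

open MeasureTheory Matrix Filter Topology
open scoped ContDiff Matrix.Norms.Frobenius
open Pool.Agent.H906R3 Pool.Agent.YMI

namespace Pool.Agent.W504.YT

set_option linter.unusedSectionVars false

noncomputable section

variable {N n D : ℕ} {G : Subgroup (UU N)}

/-- the space of the local functions -/
def LocV (D : ℕ) (G : Subgroup (UU N)) : Submodule ℝ ((LinkZ D → G) → ℝ) where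
  carrier := {F | ∃ Λ : Finset (LinkZ D), IsLocal Λ F}
  add_mem' := by
    classical
    rintro F F' ⟨Λ, h⟩ ⟨Λ', h'⟩
    exact ⟨_, h.add h'⟩
  zero_mem' := ⟨∅, IsLocal.const ∅ 0⟩
  smul_mem' := by
    classical
    rintro c F ⟨Λ, h⟩
    exact ⟨_, (IsLocal.const Λ c).mul h⟩

variable [CompactSpace G] [SecondCountableTopology G]
  [MeasurableSpace G] [BorelSpace G] {μ : Measure G} [IsProbabilityMeasure μ] [μ.IsHaarMeasure]
  {B : LieBasis G n} {g : ℝ} {ν : Measure (LinkZ D → G)} [IsProbabilityMeasure ν]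

lemma cont_int {F : (LinkZ D → G) → ℝ} (hF : Continuous F) : Integrable F ν := by
  obtain ⟨M, hM0, hM⟩ := exists_bd (G := G) hF
  exact Integrable.of_bound hF.aestronglyMeasurable M (Filter.Eventually.of_forall hM)

lemma cont_mem {F : (LinkZ D → G) → ℝ} (hF : Continuous F) : MemLp F 2 ν := by
  obtain ⟨M, hM0, hM⟩ := exists_bd (G := G) hF
  exact MemLp.of_bound hF.aestronglyMeasurable M (Filter.Eventually.of_forall hM)

lemma dlink_cont {Λ : Finset (LinkZ D)} {F : (LinkZ D → G) → ℝ} (hF : IsLocal Λ F)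
    (e : LinkZ D) (a : Fin n) : Continuous (fun U => dlink B e a F U) :=
  local_cont (hF.dlink B e a)

lemma LocV_cont (F : LocV D G) : Continuous F.1 := by
  obtain ⟨Λ, h⟩ := F.2
  exact local_cont h

/-- the embedding of the local functions -/
def iV (ν : Measure (LinkZ D → G)) [IsProbabilityMeasure ν] : LocV D G →ₗ[ℝ] Lp ℝ 2 ν where
  toFun F := (cont_mem (LocV_cont F)).toLp F.1
  map_add' _ _ := MemLp.toLp_add _ _
  map_smul' _ _ := MemLp.toLp_const_smul _ _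

lemma iV_dense : DenseRange (iV (G := G) (D := D) ν) := by
  rw [Metric.denseRange_iff]
  intro u ε hε
  obtain ⟨Λ, F, hF, hm, h⟩ := local_denseLp (ν := ν) u (half_pos hε)
  refine ⟨⟨F, Λ, hF⟩, ?_⟩
  rw [dist_eq_norm]
  exact lt_of_le_of_lt h (half_lt_self hε)

/-- the energy form -/
def qf (B : LieBasis G n) (g : ℝ) (ν : Measure (LinkZ D → G)) (F F' : (LinkZ D → G) → ℝ) : ℝ :=
  g ^ 2 / 2 * ∑ᶠ e : LinkZ D, ∑ a, ∫ U, dlink B e a F U * dlink B e a F' U ∂ν

lemma qf_eq {Λ : Finset (LinkZ D)} {F : (LinkZ D → G) → ℝ} (hF : IsLocal Λ F)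
    (F' : (LinkZ D → G) → ℝ) : qf B g ν F F' =
      g ^ 2 / 2 * ∑ e ∈ Λ, ∑ a, ∫ U, dlink B e a F U * dlink B e a F' U ∂ν := by
  unfold qf
  rw [finsum_eq_sum_of_support_subset]
  intro e he
  by_contra hn
  apply he
  refine Finset.sum_eq_zero fun a _ => ?_
  have : ∀ U, dlink B e a F U * dlink B e a F' U = 0 := fun U => by
    rw [dlink_zero_local B hF hn a U, zero_mul]
  simp only [this, integral_zero]

lemma qf_symm (F F' : (LinkZ D → G) → ℝ) : qf B g ν F F' = qf B g ν F' F := by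
  unfold qf
  congr 1
  refine finsum_congr fun e => Finset.sum_congr rfl fun a _ => ?_
  refine integral_congr_ae (Filter.Eventually.of_forall fun U => ?_)
  exact mul_comm _ _

lemma qf_add (F1 F2 F' : LocV D G) :
    qf B g ν (F1.1 + F2.1) F'.1 = qf B g ν F1.1 F'.1 + qf B g ν F2.1 F'.1 := by
  classical
  obtain ⟨Λ1, h1⟩ := F1.2
  obtain ⟨Λ2, h2⟩ := F2.2
  obtain ⟨Λ', h'⟩ := F'.2
  have k1 := h1.mono (Finset.subset_union_left (s₁ := Λ1) (s₂ := Λ2))
  have k2 := h2.mono (Finset.subset_union_right (s₁ := Λ1) (s₂ := Λ2))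
  have k12 : IsLocal (Λ1 ∪ Λ2) (F1.1 + F2.1) := h1.add h2
  rw [qf_eq k12, qf_eq k1, qf_eq k2, ← mul_add, ← Finset.sum_add_distrib]
  congr 1
  refine Finset.sum_congr rfl fun e _ => ?_
  rw [← Finset.sum_add_distrib]
  refine Finset.sum_congr rfl fun a _ => ?_
  rw [← integral_add]
  · refine integral_congr_ae (Filter.Eventually.of_forall fun U => ?_)
    have := dlink_add_local B h1 h2 e a U
    change dlink B e a (F1.1 + F2.1) U = _ at this
    show dlink B e a (F1.1 + F2.1) U * _ = _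
    rw [this]
    ring
  · exact cont_int ((dlink_cont h1 e a).mul (dlink_cont h' e a))
  · exact cont_int ((dlink_cont h2 e a).mul (dlink_cont h' e a))

lemma dlink_smul_local {Λ : Finset (LinkZ D)} {F : (LinkZ D → G) → ℝ} (hF : IsLocal Λ F)
    (c : ℝ) (e : LinkZ D) (a : Fin n) (U : LinkZ D → G) :
    dlink B e a (c • F) U = c * dlink B e a F U := by
  unfold dlink
  have : (fun t => (c • F) (Function.update U e (B.ex a t * U e))) =
      fun t => c * F (Function.update U e (B.ex a t * U e)) := rfl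
  rw [this, deriv_const_mul_field]

lemma qf_smul (c : ℝ) (F1 F' : LocV D G) :
    qf B g ν (c • F1.1) F'.1 = c * qf B g ν F1.1 F'.1 := by
  classical
  obtain ⟨Λ1, h1⟩ := F1.2
  have h2 : IsLocal Λ1 (c • F1.1) := by
    have := (IsLocal.const Λ1 c).mul h1
    rwa [Finset.union_self] at this
  rw [qf_eq h1, qf_eq h2, ← mul_assoc, mul_comm c, mul_assoc]
  congr 1
  rw [Finset.mul_sum]
  refine Finset.sum_congr rfl fun e _ => ?_
  rw [Finset.mul_sum]
  refine Finset.sum_congr rfl fun a _ => ?_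
  rw [← integral_const_mul]
  refine integral_congr_ae (Filter.Eventually.of_forall fun U => ?_)
  show dlink B e a (c • F1.1) U * _ = _
  rw [dlink_smul_local h1]
  ring

/-- the energy form, as bilinear map -/
def qV (B : LieBasis G n) (g : ℝ) (ν : Measure (LinkZ D → G)) [IsProbabilityMeasure ν] :
    LocV D G →ₗ[ℝ] LocV D G →ₗ[ℝ] ℝ :=
  LinearMap.mk₂ ℝ (fun F F' => qf B g ν F.1 F'.1) (fun F1 F2 F' => qf_add F1 F2 F')
    (fun c F F' => qf_smul c F F')
    (fun F F1 F2 => by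
      rw [qf_symm, qf_symm F.1 F1.1, qf_symm F.1 F2.1]
      exact qf_add F1 F2 F)
    (fun c F F' => by
      rw [qf_symm, qf_symm F.1 F'.1]
      exact qf_smul c F' F)

lemma qV_apply (F F' : LocV D G) : qV B g ν F F' = qf B g ν F.1 F'.1 := rfl

lemma norm_iV (F : LocV D G) : ‖iV ν F‖ = Real.sqrt (∫ U, F.1 U ^ 2 ∂ν) := by
  have h1 : ‖iV ν F‖ ^ 2 = ∫ U, F.1 U ^ 2 ∂ν := by
    rw [← real_inner_self_eq_norm_sq, L2.inner_def]
    have hm : MemLp F.1 2 ν := cont_mem (LocV_cont F)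
    refine integral_congr_ae ?_
    filter_upwards [hm.coeFn_toLp] with U hU
    show inner ℝ ((hm.toLp F.1 : Lp ℝ 2 ν) U) ((hm.toLp F.1 : Lp ℝ 2 ν) U) = _
    rw [hU]
    simp [sq]
  rw [← h1, Real.sqrt_sq (norm_nonneg _)]

lemma qV_self {Λ : Finset (LinkZ D)} {F : LocV D G} (hF : IsLocal Λ F.1) :
    qV B g ν F F = g ^ 2 / 2 * ∫ U, gradSq B Λ F.1 U ∂ν := by
  rw [qV_apply, qf_eq hF]
  congr 1
  unfold gradSq
  rw [integral_finsetSum]
  · refine Finset.sum_congr rfl fun e _ => ?_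
    rw [integral_finsetSum]
    · refine Finset.sum_congr rfl fun a _ => ?_
      refine integral_congr_ae (Filter.Eventually.of_forall fun U => ?_)
      show _ * _ = _ ^ 2
      rw [sq]
    · intro a _
      exact cont_int ((dlink_cont hF e a).pow 2)
  · intro e _
    exact cont_int (continuous_finsetSum _ fun a _ => (dlink_cont hF e a).pow 2)

/-- the form bound -/
theorem qV_bound {Δ : ℝ} (h1 : LimP B μ g Δ ν) (hk : ∀ m, ∃ C, KinP D B μ g m C)
    (F : LocV D G) : ∃ C : ℝ, ∀ F' : LocV D G, |qV B g ν F F'| ≤ C * ‖iV ν F'‖ := by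
  classical
  obtain ⟨Λ, hF⟩ := F.2
  obtain ⟨m, hm⟩ := exists_box Λ
  obtain ⟨C, hC⟩ := hk m
  have hC0 := hC.1
  have hj : ∀ e ∈ Λ, ∀ a : Fin n, ∃ c : ℝ, 0 ≤ c ∧ ∀ F' : LocV D G,
      |∫ U, dlink B e a F.1 U * dlink B e a F'.1 U ∂ν| ≤ c * ‖iV ν F'‖ := by
    intro e he a
    have hf := hF.dlink B e a
    have hff := hf.dlink B e a
    obtain ⟨M, hM0, hM⟩ := exists_bd (G := G) (local_cont hf)
    obtain ⟨M', hM0', hM'⟩ := exists_bd (G := G) (local_cont hff)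
    refine ⟨2 * C * M + M', by positivity, fun F' => ?_⟩
    obtain ⟨Λ', hF'⟩ := F'.2
    have hprod := hf.mul hF'
    have k1 := ibp_limit h1 hC (hm e he) a hprod
    have hder : ∀ U, dlink B e a (fun U => dlink B e a F.1 U * F'.1 U) U =
        dlink B e a (fun U => dlink B e a F.1 U) U * F'.1 U +
          dlink B e a F.1 U * dlink B e a F'.1 U := fun U =>
      dlink_mul_local B hf hF' e a U
    have i1 : Integrable (fun U => dlink B e a (fun U => dlink B e a F.1 U) U * F'.1 U) ν :=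
      cont_int ((local_cont hff).mul (local_cont hF'))
    have i2 : Integrable (fun U => dlink B e a F.1 U * dlink B e a F'.1 U) ν :=
      cont_int ((local_cont hf).mul (dlink_cont hF' e a))
    simp only [hder] at k1
    rw [integral_add i1 i2] at k1
    have iF2 : Integrable (fun U => F'.1 U ^ 2) ν := cont_int ((local_cont hF').pow 2)
    have k2 : |∫ U, dlink B e a (fun U => dlink B e a F.1 U) U * F'.1 U ∂ν| ≤
        M' * Real.sqrt (∫ U, F'.1 U ^ 2 ∂ν) := by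
      have c1 : |∫ U, dlink B e a (fun U => dlink B e a F.1 U) U * F'.1 U ∂ν| ≤
          ∫ U, M' * |F'.1 U| ∂ν := by
        refine (abs_integral_le_integral_abs).trans ?_
        refine integral_mono i1.abs ((cont_int (local_cont hF').abs).const_mul _) fun U => ?_
        show |_ * _| ≤ _
        rw [abs_mul]
        exact mul_le_mul_of_nonneg_right (hM' U) (abs_nonneg _)
      refine c1.trans ?_
      rw [integral_const_mul]
      refine mul_le_mul_of_nonneg_left ?_ hM0'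
      -- `(∫ |F'|)² ≤ ∫ F'²`
      have iA : Integrable (fun U => |F'.1 U|) ν := cont_int (local_cont hF').abs
      obtain ⟨s, hs⟩ : ∃ s, s = ∫ U, |F'.1 U| ∂ν := ⟨_, rfl⟩
      rw [← hs]
      refine Real.le_sqrt_of_sq_le ?_
      have c2 : 0 ≤ ∫ U, (|F'.1 U| - s) ^ 2 ∂ν := integral_nonneg fun U => sq_nonneg _
      have c3 : ∫ U, (|F'.1 U| - s) ^ 2 ∂ν = ∫ U, F'.1 U ^ 2 ∂ν - s ^ 2 := by
        have e1 : ∀ U, (|F'.1 U| - s) ^ 2 = F'.1 U ^ 2 + (-(2 * s) * |F'.1 U| + s ^ 2) := by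
          intro U
          rw [sub_sq, sq_abs]
          ring
        have i3 : Integrable (fun U => -(2 * s) * |F'.1 U|) ν := iA.const_mul _
        have i4 : Integrable (fun _ : LinkZ D → G => s ^ 2) ν := integrable_const _
        have i5 : Integrable (fun U => -(2 * s) * |F'.1 U| + s ^ 2) ν := i3.add i4
        simp only [e1]
        rw [integral_add iF2 i5, integral_add i3 i4, integral_const_mul, ← hs,
          integral_const]
        simp
        ring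
      linarith
    have k3 : Real.sqrt (∫ U, (dlink B e a F.1 U * F'.1 U) ^ 2 ∂ν) ≤
        M * Real.sqrt (∫ U, F'.1 U ^ 2 ∂ν) := by
      rw [← Real.sqrt_sq hM0, ← Real.sqrt_mul (sq_nonneg M)]
      refine Real.sqrt_le_sqrt ?_
      rw [← integral_const_mul]
      refine integral_mono (cont_int (((local_cont hf).mul (local_cont hF')).pow 2))
        (iF2.const_mul _) fun U => ?_
      show (_ * _) ^ 2 ≤ _
      rw [mul_pow]
      have := pow_le_pow_left₀ (abs_nonneg _) (hM U) 2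
      rw [sq_abs] at this
      exact mul_le_mul_of_nonneg_right this (sq_nonneg _)
    have k4 := mul_le_mul_of_nonneg_left k3 (show 0 ≤ 2 * C by linarith)
    rw [norm_iV]
    obtain ⟨x, hx⟩ : ∃ x, x = ∫ U, dlink B e a F.1 U * dlink B e a F'.1 U ∂ν := ⟨_, rfl⟩
    obtain ⟨y, hy⟩ : ∃ y, y = ∫ U, dlink B e a (fun U => dlink B e a F.1 U) U * F'.1 U ∂ν :=
      ⟨_, rfl⟩
    rw [← hx, ← hy] at k1
    rw [← hy] at k2
    rw [← hx]
    have k5 : |x| ≤ |y + x| + |y| := by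
      have := abs_sub (y + x) y
      have h0 : y + x - y = x := by ring
      rw [h0] at this
      exact this
    have e2 : (2 * C * M + M') * Real.sqrt (∫ U, F'.1 U ^ 2 ∂ν) =
        2 * C * (M * Real.sqrt (∫ U, F'.1 U ^ 2 ∂ν)) + M' * Real.sqrt (∫ U, F'.1 U ^ 2 ∂ν) := by
      ring
    rw [e2]
    linarith
  choose! c hc0 hc using hj
  refine ⟨g ^ 2 / 2 * ∑ e ∈ Λ, ∑ a, c e a, fun F' => ?_⟩
  rw [qV_apply, qf_eq hF, abs_mul, abs_of_nonneg (by positivity : 0 ≤ g ^ 2 / 2), mul_assoc]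
  refine mul_le_mul_of_nonneg_left ?_ (by positivity)
  rw [Finset.sum_mul]
  refine (Finset.abs_sum_le_sum_abs _ _).trans (Finset.sum_le_sum fun e he => ?_)
  rw [Finset.sum_mul]
  refine (Finset.abs_sum_le_sum_abs _ _).trans (Finset.sum_le_sum fun a _ => ?_)
  exact hc e he a F'

/-- The Hamiltonian of the vacuum. -/
theorem hamiltonian {Δ : ℝ} (hΔ : 0 ≤ Δ) (h1 : LimP B μ g Δ ν)
    (hk : ∀ m, ∃ C, KinP D B μ g m C)
    (hgap : ∀ (Λ : Finset (LinkZ D)) (F : (LinkZ D → G) → ℝ), IsLocal Λ F →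
      Δ * (∫ U, F U ^ 2 ∂ν - (∫ U, F U ∂ν) ^ 2) ≤ g ^ 2 / 2 * ∫ U, gradSq B Λ F U ∂ν) :
    ∃ H : Lp ℝ 2 ν →ₗ.[ℝ] Lp ℝ 2 ν, IsSelfAdjoint H ∧
      (∀ (Λ : Finset (LinkZ D)) (F F' : (LinkZ D → G) → ℝ) (hF : MemLp F 2 ν)
        (hF' : MemLp F' 2 ν), IsLocal Λ F → IsLocal Λ F' →
        ∃ h : hF.toLp F ∈ H.domain, inner ℝ (hF'.toLp F') (H ⟨hF.toLp F, h⟩) =
          g ^ 2 / 2 * ∑ e ∈ Λ, ∑ a, ∫ U, dlink B e a F U * dlink B e a F' U ∂ν) ∧
      (∀ (u : H.domain) (ε : ℝ), 0 < ε → ∃ (Λ : Finset (LinkZ D)) (F : (LinkZ D → G) → ℝ)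
        (hF : MemLp F 2 ν), IsLocal Λ F ∧ ‖(u : Lp ℝ 2 ν) - hF.toLp F‖ ≤ ε ∧
        |inner ℝ (u : Lp ℝ 2 ν) (H u) - g ^ 2 / 2 * ∫ U, gradSq B Λ F U ∂ν| ≤ ε) ∧
      ∀ u : H.domain, Δ * (‖(u : Lp ℝ 2 ν)‖ ^ 2 - (∫ U, (u : Lp ℝ 2 ν) U ∂ν) ^ 2) ≤
        inner ℝ (u : Lp ℝ 2 ν) (H u) := by
  obtain ⟨H, hH, hH1, hH2⟩ := friedrichs (iV (G := G) (D := D) ν) iV_dense (qV B g ν)
    (fun F F' => qf_symm _ _) (fun F => by
      obtain ⟨Λ, hF⟩ := F.2
      rw [qV_self hF]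
      refine mul_nonneg (by positivity) (integral_nonneg fun U => ?_)
      exact Finset.sum_nonneg fun e _ => Finset.sum_nonneg fun a _ => sq_nonneg _)
    (qV_bound h1 hk)
  have hcore : ∀ (u : H.domain) (ε : ℝ), 0 < ε → ∃ (Λ : Finset (LinkZ D))
      (F : (LinkZ D → G) → ℝ)
        (hF : MemLp F 2 ν), IsLocal Λ F ∧ ‖(u : Lp ℝ 2 ν) - hF.toLp F‖ ≤ ε ∧
        |inner ℝ (u : Lp ℝ 2 ν) (H u) - g ^ 2 / 2 * ∫ U, gradSq B Λ F U ∂ν| ≤ ε := by
    intro u ε hε
    obtain ⟨F, a1, a2⟩ := hH2 u ε hε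
    obtain ⟨Λ, hF⟩ := F.2
    refine ⟨Λ, F.1, cont_mem (LocV_cont F), hF, a1, ?_⟩
    rwa [qV_self hF] at a2
  refine ⟨H, hH, ?_, hcore, ?_⟩
  · intro Λ F F' hF hF' hl hl'
    obtain ⟨h, h2⟩ := hH1 ⟨F, Λ, hl⟩
    refine ⟨h, ?_⟩
    have h3 := h2 ⟨F', Λ, hl'⟩
    rw [qV_apply, qf_eq hl] at h3
    exact h3
  · intro u
    -- the limit of the inequality for local functions
    obtain ⟨x, hx⟩ : ∃ x, x = inner ℝ (u : Lp ℝ 2 ν) (H u) := ⟨_, rfl⟩
    rw [← hx]
    have hseq : ∀ k : ℕ, ∃ (Λ : Finset (LinkZ D)) (F : (LinkZ D → G) → ℝ)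
        (hF : MemLp F 2 ν), IsLocal Λ F ∧ ‖(u : Lp ℝ 2 ν) - hF.toLp F‖ ≤ 1 / ((k : ℝ) + 1) ∧
        |inner ℝ (u : Lp ℝ 2 ν) (H u) - g ^ 2 / 2 * ∫ U, gradSq B Λ F U ∂ν| ≤
          1 / ((k : ℝ) + 1) := fun k => hcore u _ (by positivity)
    choose Λs Fs hFs hloc hn he using hseq
    have hv : Tendsto (fun k => (hFs k).toLp (Fs k)) atTop (𝓝 (u : Lp ℝ 2 ν)) := by
      rw [tendsto_iff_norm_sub_tendsto_zero]
      refine squeeze_zero (fun k => norm_nonneg _) (fun k => ?_)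
        tendsto_one_div_add_atTop_nhds_zero_nat
      rw [norm_sub_rev]
      exact hn k
    have hvn : Tendsto (fun k => ‖(hFs k).toLp (Fs k)‖ ^ 2) atTop
        (𝓝 (‖(u : Lp ℝ 2 ν)‖ ^ 2)) := hv.norm.pow 2
    have hone : MemLp (fun _ : LinkZ D → G => (1 : ℝ)) 2 ν := memLp_const 1
    have hint : ∀ v : Lp ℝ 2 ν, ∫ U, v U ∂ν = inner ℝ (hone.toLp _) v := by
      intro v
      rw [L2.inner_def]
      refine integral_congr_ae ?_
      filter_upwards [hone.coeFn_toLp] with U hU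
      rw [hU]
      simp
    have hvi : Tendsto (fun k => (∫ U, ((hFs k).toLp (Fs k) : Lp ℝ 2 ν) U ∂ν) ^ 2) atTop
        (𝓝 ((∫ U, (u : Lp ℝ 2 ν) U ∂ν) ^ 2)) := by
      simp only [hint]
      exact (tendsto_const_nhds.inner hv).pow 2
    have hE : Tendsto (fun k => g ^ 2 / 2 * ∫ U, gradSq B (Λs k) (Fs k) U ∂ν) atTop (𝓝 x) := by
      rw [tendsto_iff_norm_sub_tendsto_zero]
      refine squeeze_zero (fun k => norm_nonneg _) (fun k => ?_)
        tendsto_one_div_add_atTop_nhds_zero_nat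
      rw [norm_sub_rev, Real.norm_eq_abs, hx]
      exact he k
    refine le_of_tendsto_of_tendsto ((hvn.sub hvi).const_mul Δ) hE
      (Filter.Eventually.of_forall fun k => ?_)
    have h3 := hgap (Λs k) (Fs k) (hloc k)
    have e1 : ‖(hFs k).toLp (Fs k)‖ ^ 2 = ∫ U, Fs k U ^ 2 ∂ν := by
      have := norm_iV (ν := ν) ⟨Fs k, Λs k, hloc k⟩
      have e0 : iV ν ⟨Fs k, Λs k, hloc k⟩ = (hFs k).toLp (Fs k) := rfl
      rw [e0] at this
      rw [this, Real.sq_sqrt (integral_nonneg fun U => sq_nonneg _)]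
    have e2 : ∫ U, ((hFs k).toLp (Fs k) : Lp ℝ 2 ν) U ∂ν = ∫ U, Fs k U ∂ν :=
      integral_congr_ae (hFs k).coeFn_toLp
    show Δ * (‖(hFs k).toLp (Fs k)‖ ^ 2 - (∫ U, ((hFs k).toLp (Fs k) : Lp ℝ 2 ν) U ∂ν) ^ 2) ≤ _
    rw [e1, e2]
    exact h3

end

end Pool.Agent.W504.YT
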