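import Mathlib
import Pool.Agent.W504.YT.T11

/-!
# Uniqueness and invariance of the vacuum, kernel of the Hamiltonian
-/

open MeasureTheory Matrix Filter Topology
open scoped ContDiff Matrix.Norms.Frobenius
open Pool.Agent.H906R3 Pool.Agent.YMI

namespace Pool.Agent.W504.YT

set_option linter.unusedSectionVars false

noncomputable section

variable {N n D : ℕ} {G : Subgroup (UU N)} [CompactSpace G] [SecondCountableTopology G]
  [MeasurableSpace G] [BorelSpace G] {μ : Measure G} [IsProbabilityMeasure μ] [μ.IsHaarMeasure]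
  {B : LieBasis G n} {g : ℝ}

/-- uniqueness of the limit -/
theorem lim_unique {Δ : ℝ} {ν ν' : Measure (LinkZ D → G)} [IsProbabilityMeasure ν]
    [IsProbabilityMeasure ν'] (h : LimP B μ g Δ ν) (h' : LimP B μ g Δ ν')
    (hS : ∀ (l : ℕ) [NeZero l] (δ : ℝ), 0 < δ → ∃ Ψ : (Link D l → G) → ℝ, Low B μ g l δ Ψ) :
    ν' = ν := by
  refine local_ext fun Λ F hF => ?_
  refine eq_of_forall_dist_le fun ε hε => ?_
  obtain ⟨l1, hl1⟩ := loc_conv h hF (half_pos hε)
  obtain ⟨l2, hl2⟩ := loc_conv h' hF (half_pos hε)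
  obtain ⟨l, hl⟩ : ∃ l, l = max (max l1 l2) 1 := ⟨_, rfl⟩
  have ha1 : l1 ≤ l := hl ▸ (le_max_left _ _).trans (le_max_left _ _)
  have ha2 : l2 ≤ l := hl ▸ (le_max_right _ _).trans (le_max_left _ _)
  have ha3 : 1 ≤ l := hl ▸ le_max_right _ _
  have : NeZero l := ⟨by omega⟩
  obtain ⟨δ1, hδ1, k1⟩ := hl1 l ha1
  obtain ⟨δ2, hδ2, k2⟩ := hl2 l ha2
  obtain ⟨Ψ, hΨ⟩ := hS l (min δ1 δ2) (lt_min hδ1 hδ2)
  have q1 := k1 Ψ (hΨ.mono (min_le_left _ _))
  have q2 := k2 Ψ (hΨ.mono (min_le_right _ _))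
  rw [Real.dist_eq]
  rw [abs_le] at *
  constructor <;> linarith [q1.1, q1.2, q2.1, q2.2]

/-- invariance from the invariance of the integrals of local functions -/
theorem map_inv {ν : Measure (LinkZ D → G)} [IsProbabilityMeasure ν]
    {T : (LinkZ D → G) → LinkZ D → G} (hT : Continuous T)
    (h : ∀ (Λ : Finset (LinkZ D)) (F : (LinkZ D → G) → ℝ), IsLocal Λ F →
      ∫ U, F (T U) ∂ν = ∫ U, F U ∂ν) : ν.map T = ν := by
  have : IsProbabilityMeasure (ν.map T) :=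
    Measure.isProbabilityMeasure_map hT.measurable.aemeasurable
  refine local_ext fun Λ F hF => ?_
  rw [integral_map hT.measurable.aemeasurable (local_cont hF).aestronglyMeasurable]
  exact h Λ F hF

/-- The kernel of the Hamiltonian consists of the constants. -/
theorem ker_const {ν : Measure (LinkZ D → G)} [IsProbabilityMeasure ν] {Δ : ℝ} (hΔ : 0 < Δ)
    {H : Lp ℝ 2 ν →ₗ.[ℝ] Lp ℝ 2 ν}
    (h1 : ∀ (Λ : Finset (LinkZ D)) (F F' : (LinkZ D → G) → ℝ) (hF : MemLp F 2 ν)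
        (hF' : MemLp F' 2 ν), IsLocal Λ F → IsLocal Λ F' →
        ∃ h : hF.toLp F ∈ H.domain, inner ℝ (hF'.toLp F') (H ⟨hF.toLp F, h⟩) =
          g ^ 2 / 2 * ∑ e ∈ Λ, ∑ a, ∫ U, dlink B e a F U * dlink B e a F' U ∂ν)
    (h2 : ∀ u : H.domain, Δ * (‖(u : Lp ℝ 2 ν)‖ ^ 2 - (∫ U, (u : Lp ℝ 2 ν) U ∂ν) ^ 2) ≤
        inner ℝ (u : Lp ℝ 2 ν) (H u)) (u : H.domain) :
    H u = 0 ↔ ∃ c : ℝ, ∀ᵐ U ∂ν, (u : Lp ℝ 2 ν) U = c := by
  have hone : MemLp (fun _ : LinkZ D → G => (1 : ℝ)) 2 ν := memLp_const 1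
  have hint : ∀ v : Lp ℝ 2 ν, ∫ U, v U ∂ν = inner ℝ (hone.toLp _) v := by
    intro v
    rw [L2.inner_def]
    refine integral_congr_ae ?_
    filter_upwards [hone.coeFn_toLp] with U hU
    rw [hU]
    simp
  have hone1 : inner ℝ (hone.toLp _) (hone.toLp _) = (1 : ℝ) := by
    rw [← hint, integral_congr_ae hone.coeFn_toLp]
    simp
  constructor
  · intro hu
    have h3 := h2 u
    rw [hu, inner_zero_right] at h3
    obtain ⟨c, hc⟩ : ∃ c, c = ∫ U, (u : Lp ℝ 2 ν) U ∂ν := ⟨_, rfl⟩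
    rw [← hc] at h3
    have h4 : ‖(u : Lp ℝ 2 ν) - c • hone.toLp _‖ ^ 2 ≤ 0 := by
      rw [← real_inner_self_eq_norm_sq, inner_sub_left, inner_sub_right, inner_sub_right,
        inner_smul_left, inner_smul_right, inner_smul_right, inner_smul_left,
        real_inner_comm (hone.toLp _) (u : Lp ℝ 2 ν), ← hint, ← hc, hone1,
        real_inner_self_eq_norm_sq]
      simp only [conj_trivial]
      nlinarith
    have h5 : (u : Lp ℝ 2 ν) - c • hone.toLp _ = 0 := by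
      have h6 : ‖(u : Lp ℝ 2 ν) - c • hone.toLp _‖ = 0 := by
        have := sq_nonneg ‖(u : Lp ℝ 2 ν) - c • hone.toLp _‖
        exact pow_eq_zero_iff (two_ne_zero) |>.1 (le_antisymm h4 this)
      exact norm_eq_zero.1 h6
    refine ⟨c, ?_⟩
    rw [sub_eq_zero] at h5
    rw [h5]
    filter_upwards [Lp.coeFn_smul c (hone.toLp _), hone.coeFn_toLp] with U e1 e2
    rw [e1, Pi.smul_apply, e2, smul_eq_mul, mul_one]
  · rintro ⟨c, hc⟩
    have hcm : MemLp (fun _ : LinkZ D → G => c) 2 ν := memLp_const c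
    have hu : (u : Lp ℝ 2 ν) = hcm.toLp _ := by
      refine Lp.ext ?_
      filter_upwards [hc, hcm.coeFn_toLp] with U e1 e2
      rw [e1, e2]
    have h3 : ∀ F' : LocV D G, inner ℝ (iV ν F') (H u) = 0 := by
      intro F'
      obtain ⟨Λ, hF'⟩ := F'.2
      obtain ⟨hd, h4⟩ := h1 Λ (fun _ => c) F'.1 hcm (cont_mem (LocV_cont F'))
        (IsLocal.const Λ c) hF'
      have h5 : u = ⟨hcm.toLp _, hd⟩ := Subtype.ext hu
      rw [h5]
      have h6 : ∀ e a U, dlink B e a (fun _ : LinkZ D → G => c) U = 0 := by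
        intro e a U
        unfold dlink
        simp
      change inner ℝ ((cont_mem (LocV_cont F')).toLp F'.1) _ = _
      rw [h4]
      simp only [h6, zero_mul, integral_zero, Finset.sum_const_zero, mul_zero]
    have hcl : ∀ v : Lp ℝ 2 ν, inner ℝ v (H u) = 0 := by
      intro v
      have hc1 : IsClosed {v : Lp ℝ 2 ν | inner ℝ v (H u) = 0} :=
        isClosed_eq (by fun_prop) continuous_const
      exact (iV_dense (ν := ν)).induction_on (p := fun v => inner ℝ v (H u) = 0) v hc1 h3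
    exact inner_self_eq_zero.1 (hcl (H u))

end

end Pool.Agent.W504.YT
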