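import Mathlib
import Pool.Agent.W504.YT.T5
import Pool.Agent.W504.YT.T12
import Pool.Agent.YMI.Asm
import Pool.Agent.YMI.CloseA
import Pool.Agent.YMI.CloseB

/-!
# The vacuum of Hamiltonian lattice gauge theory in infinite volume, with a mass gap

The definitions are in `Pool.Agent.YMI.Defs` and `Pool.Agent.YMI.Defs2`.
-/

open MeasureTheory Matrix
open scoped ContDiff Matrix.Norms.Frobenius
open Pool.Agent.H906R3 Pool.Agent.YMI

namespace Pool.Agent.W504.YT.Core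

set_option linter.unusedSectionVars false

noncomputable section

section defs

variable {N n D : ℕ} {G : Subgroup (UU N)} [MeasurableSpace G]

/-- `groundEnergy` is the infimum of the energy over all smooth functions, gauge invariant or not,
of the periodic lattice of size `l`, and the gap above it is at least `Δ`: whenever all unit vectors
of the plane spanned by two orthonormal smooth functions have energy at most `E`, then
`E ≥ E₀ + Δ`. -/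
def TorusGap (B : LieBasis G n) (μ : Measure G) (g Δ : ℝ) (l : ℕ) [NeZero l] : Prop :=
  (∀ F : (Link D l → G) → ℝ, IsSmooth F →
    groundEnergy D l B μ g * ∫ U, F U ^ 2 ∂(Measure.pi fun _ : Link D l => μ) ≤
      energy B μ g F) ∧
  ∀ Ψ Φ : (Link D l → G) → ℝ, IsSmooth Ψ → IsSmooth Φ →
    ∫ U, Ψ U ^ 2 ∂(Measure.pi fun _ : Link D l => μ) = 1 →
    ∫ U, Φ U ^ 2 ∂(Measure.pi fun _ : Link D l => μ) = 1 →
    ∫ U, Ψ U * Φ U ∂(Measure.pi fun _ : Link D l => μ) = 0 →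
    ∀ E : ℝ, (∀ a b : ℝ, a ^ 2 + b ^ 2 = 1 →
      energy B μ g (fun U => a * Ψ U + b * Φ U) ≤ E) → groundEnergy D l B μ g + Δ ≤ E

/-- `ν` is the limit of the ground states of the periodic lattices: for local observables `F` in the
box of size `m`, with gradient bounded by `c` and values by `M`, the expectations in every function
`Ψ` of energy at most `E₀ + δ` on the lattice of size `l` differ from those in `ν` by at most
`C c exp (-a l) + 4 M √(δ / Δ)`. -/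
def IsLimit (B : LieBasis G n) (μ : Measure G) (g Δ : ℝ) (ν : Measure (LinkZ D → G)) : Prop :=
  ∀ m : ℕ, ∃ (C a : ℝ) (l₀ : ℕ), 0 < a ∧ ∀ (Λ : Finset (LinkZ D))
    (F : (LinkZ D → G) → ℝ) (c M : ℝ),
    (∀ e ∈ Λ, ∀ k, |e.1 k| ≤ m) → IsLocal Λ F → 0 ≤ c → (∀ U, gradSq B Λ F U ≤ c ^ 2) →
    (∀ U, |F U| ≤ M) → ∀ (l : ℕ) [NeZero l], l₀ ≤ l → ∀ (δ : ℝ) (Ψ : (Link D l → G) → ℝ),
    0 ≤ δ → Low B μ g l δ Ψ →
    |ex μ Ψ (fun U => F (per U)) - ∫ U, F U ∂ν| ≤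
      C * c * Real.exp (-(a * l)) + 4 * M * Real.sqrt (δ / Δ)

/-- The energies of the excitations `F Ψ`, with `F` a local observable and `Ψ` of low energy on a
large periodic lattice, converge: `⟨F Ψ, (H - E₀) F Ψ⟩` tends to `(g ^ 2 / 2) ∫ |∇ F| ^ 2 dν`. -/
def EnergyLimit (B : LieBasis G n) (μ : Measure G) (g : ℝ) (ν : Measure (LinkZ D → G)) : Prop :=
  ∀ (Λ : Finset (LinkZ D)) (F : (LinkZ D → G) → ℝ), IsLocal Λ F → ∀ ε : ℝ, 0 < ε →
    ∃ l₀ : ℕ, ∀ (l : ℕ) [NeZero l], l₀ ≤ l → ∃ δ : ℝ, 0 < δ ∧ ∀ Ψ : (Link D l → G) → ℝ,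
      Low B μ g l δ Ψ →
      |energy B μ g (fun U => F (per U) * Ψ U) - groundEnergy D l B μ g *
        ∫ U, (F (per U) * Ψ U) ^ 2 ∂(Measure.pi fun _ : Link D l => μ) -
        g ^ 2 / 2 * ∫ U, gradSq B Λ F U ∂ν| ≤ ε

/-- `ν` has a Hamiltonian with gap `Δ`: a self-adjoint operator `H` on `L²(ν)` whose domain
contains the local observables `F`, `F'`, with `⟨F', H F⟩ = (g ^ 2 / 2) ∫ ∇ F' · ∇ F dν`, which is
determined by these matrix elements as the local observables are dense in the form norm (Friedrichs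
extension), such that `H u = 0` holds just for the constants, and
`⟨u, H u⟩ ≥ Δ (‖u‖ ^ 2 - ⟨1, u⟩ ^ 2)`: the spectrum is contained in `{0} ∪ [Δ, ∞)`. -/
def HasHamiltonian (B : LieBasis G n) (g Δ : ℝ) (ν : Measure (LinkZ D → G)) : Prop :=
  ∃ H : Lp ℝ 2 ν →ₗ.[ℝ] Lp ℝ 2 ν, IsSelfAdjoint H ∧
    (∀ (Λ : Finset (LinkZ D)) (F F' : (LinkZ D → G) → ℝ) (hF : MemLp F 2 ν)
      (hF' : MemLp F' 2 ν), IsLocal Λ F → IsLocal Λ F' →
      ∃ h : hF.toLp F ∈ H.domain, inner ℝ (hF'.toLp F') (H ⟨hF.toLp F, h⟩) =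
        g ^ 2 / 2 * ∑ e ∈ Λ, ∑ a, ∫ U, dlink B e a F U * dlink B e a F' U ∂ν) ∧
    (∀ (u : H.domain) (ε : ℝ), 0 < ε → ∃ (Λ : Finset (LinkZ D)) (F : (LinkZ D → G) → ℝ)
      (hF : MemLp F 2 ν), IsLocal Λ F ∧ ‖(u : Lp ℝ 2 ν) - hF.toLp F‖ ≤ ε ∧
      |inner ℝ (u : Lp ℝ 2 ν) (H u) - g ^ 2 / 2 * ∫ U, gradSq B Λ F U ∂ν| ≤ ε) ∧
    (∀ u : H.domain, H u = 0 ↔ ∃ c : ℝ, ∀ᵐ U ∂ν, (u : Lp ℝ 2 ν) U = c) ∧
    ∀ u : H.domain, Δ * (‖(u : Lp ℝ 2 ν)‖ ^ 2 - (∫ U, (u : Lp ℝ 2 ν) U ∂ν) ^ 2) ≤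
      inner ℝ (u : Lp ℝ 2 ν) (H u)

/-- Exponential decay of the covariances, with rate `a`: local observables at distance at least `R`
with gradients bounded by `c`, `c'` have covariance at most `κ c c' exp (-a R)`. -/
def Clustering (B : LieBasis G n) (κ a : ℝ) (ν : Measure (LinkZ D → G)) : Prop :=
  ∀ (Λ Λ' : Finset (LinkZ D)) (F F' : (LinkZ D → G) → ℝ) (c c' : ℝ) (R : ℕ),
    IsLocal Λ F → IsLocal Λ' F' → 0 ≤ c → 0 ≤ c' → (∀ U, gradSq B Λ F U ≤ c ^ 2) →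
    (∀ U, gradSq B Λ' F' U ≤ c' ^ 2) → (∀ e ∈ Λ, ∀ e' ∈ Λ', R ≤ dis e e') →
    |∫ U, F U * F' U ∂ν - (∫ U, F U ∂ν) * ∫ U, F' U ∂ν| ≤ κ * c * c' * Real.exp (-(a * R))

/-- Invariance under gauge transformations and translations. -/
def Symmetric (ν : Measure (LinkZ D → G)) : Prop :=
  (∀ γ : (Fin D → ℤ) → G, ν.map (gaugeZ γ) = ν) ∧ ∀ y : Fin D → ℤ, ν.map (transl y) = ν

end defs

/-- `K + √(K ^ 2 - 128 (D - 1) exp a / g ^ 4)` -/
def rate (D : ℕ) (g K a : ℝ) : ℝ :=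
  K + Real.sqrt (K ^ 2 - 128 * ((D : ℝ) - 1) * Real.exp a / g ^ 4)

/-- Hamiltonian lattice Yang-Mills theory in infinite volume, in the 't Hooft regime. Let
`128 (D - 1) < g ^ 4 K ^ 2` and `Δ = (g ^ 2 / 4) (K + √(K ^ 2 - 128 (D - 1) / g ^ 4))`. The gap of
all periodic lattices is at least `Δ`. There is exactly one probability measure `ν` on the
configurations of `ℤ ^ D`, the vacuum, which is the limit of the ground states of the periodic
lattices; on `L²(ν)` there is a self-adjoint Hamiltonian `H`, the limit of the Hamiltonians of the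
periodic lattices on the local excitations, with kernel the constants and gap `Δ`; and `ν` has
exponential clustering and is invariant under gauge transformations and translations. -/
theorem core {N n D : ℕ} (hN : 1 ≤ N) (hD : 1 ≤ D) (G : Subgroup (UU N))
    (hG : IsClosed (G : Set (UU N))) [MeasurableSpace G] [BorelSpace G] (μ : Measure G)
    [IsProbabilityMeasure μ] [μ.IsHaarMeasure] (B : LieBasis G n) (K : ℝ) (hK : 0 < K)
    (hGK : (ConnectedSpace G ∧ Curved B K) ∨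
      ((∀ u : UU N, u ∈ G ↔ (u : Mt N).det = 1) ∧ K = N / 2))
    (g : ℝ) (hg : 0 < g) (hgK : 128 * ((D : ℝ) - 1) < g ^ 4 * K ^ 2) :
    (∀ (l : ℕ) [NeZero l], TorusGap (D := D) B μ g (g ^ 2 / 4 * rate D g K 0) l) ∧
    ∃ ν : Measure (LinkZ D → G), IsProbabilityMeasure ν ∧
      IsLimit B μ g (g ^ 2 / 4 * rate D g K 0) ν ∧
      (∀ ν' : Measure (LinkZ D → G), IsProbabilityMeasure ν' →
        IsLimit B μ g (g ^ 2 / 4 * rate D g K 0) ν' → ν' = ν) ∧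
      HasHamiltonian B g (g ^ 2 / 4 * rate D g K 0) ν ∧
      EnergyLimit B μ g ν ∧
      (∀ a : ℝ, 0 ≤ a → 128 * ((D : ℝ) - 1) * Real.exp a < g ^ 4 * K ^ 2 →
        Clustering B (2 / rate D g K a) a ν) ∧
      Symmetric ν := by
  obtain ⟨Δ, hΔ'⟩ : ∃ Δ, Δ = g ^ 2 / 4 * rate D g K 0 := ⟨_, rfl⟩
  have hΔ : Δ = g ^ 2 / 4 * (K + Real.sqrt (K ^ 2 - 128 * ((D : ℝ) - 1) / g ^ 4)) := by
    rw [hΔ']
    unfold rate
    rw [Real.exp_zero, mul_one]
  rw [← hΔ']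
  have : CompactSpace G := by
    have h1 : IsCompact (G : Set (UU N)) := hG.isCompact
    exact isCompact_iff_compactSpace.1 h1
  have h00 : SecondCountableTopology (UU N) := TopologicalSpace.Subtype.secondCountableTopology _
  have : SecondCountableTopology G := TopologicalSpace.Subtype.secondCountableTopology _
  obtain ⟨hc, r, hr⟩ : W504.YM.Curv (ld B) K ∧ ∃ r, W504.YM.Cn (ld B) r := by
    rcases hGK with ⟨h1, h2⟩ | ⟨h1, h2⟩
    · exact ⟨W504.YM.curv_of (fm B) h2, W504.YM.Cn_conn (fm B) hG⟩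
    · refine ⟨?_, W504.YM.Cn_su h1 (fm B) hN⟩
      rw [h2]
      exact W504.YM.curv_su h1 (fm B)
  have hΔ0 : 0 < Δ := by
    rw [hΔ]
    have := Real.sqrt_nonneg (K ^ 2 - 128 * ((D : ℝ) - 1) / g ^ 4)
    positivity
  have hgap : ∀ (l : ℕ) [NeZero l] (Ψ Φ : (Link D l → G) → ℝ), IsSmooth Ψ → IsSmooth Φ →
      ∫ U, Ψ U ^ 2 ∂(Measure.pi fun _ : Link D l => μ) = 1 →
      ∫ U, Φ U ^ 2 ∂(Measure.pi fun _ : Link D l => μ) = 1 →
      ∫ U, Ψ U * Φ U ∂(Measure.pi fun _ : Link D l => μ) = 0 →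
      ∀ E : ℝ, (∀ a b : ℝ, a ^ 2 + b ^ 2 = 1 →
        energy B μ g (fun U => a * Ψ U + b * Φ U) ≤ E) → groundEnergy D l B μ g + Δ ≤ E := by
    intro l _ Ψ Φ hΨ hΦ h11 h22 h12 E hE
    rw [hΔ]
    refine W504.YM.torus_gap_sqrt (μ := μ) (L := ld B) (D := D) (l := l) hK hc hr hD hg hN hgK
      (ground_nonneg μ B g) (fun f hf => ?_) (Ψ := ⟨Ψ, hΨ⟩) (Φ := ⟨Φ, hΦ⟩) ?_ ?_ ?_
      (fun a b hab => ?_)
    · have h1 := ground_pos μ B g f hf
      rw [enr_eq', energy_eq] at h1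
      unfold W504.YM.en
      linarith
    · rw [← norm_eq]; exact h11
    · rw [← norm_eq]; exact h22
    · rw [YM.I_apply]; exact h12
    · have h1 := hE a b hab
      have h2 : energy B μ g (fun U => a * Ψ U + b * Φ U) = energy B μ g
          (a • (⟨Ψ, hΨ⟩ : YM.Sm (ld B) (Link D l)) + b • ⟨Φ, hΦ⟩).1 := rfl
      rw [h2, energy_eq] at h1
      exact h1
  have hE0 : ∀ (l : ℕ) [NeZero l] (F : (Link D l → G) → ℝ), IsSmooth F →
      groundEnergy D l B μ g * ∫ U, F U ^ 2 ∂(Measure.pi fun _ : Link D l => μ) ≤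
        energy B μ g F := fun l _ F hF => W504.YT.ground_le hN hD hg hK hc hgK hr F hF
  refine ⟨fun l _ => ⟨hE0 l, hgap l⟩, ?_⟩
  obtain ⟨ν, hν, h1, h2, h3, h4, h5⟩ := assemble hN hD μ B g Δ hg hΔ0
    (fun l _ δ hδ => W504.YT.low_inv hδ)
    (fun l _ δ Ψ Φ hδ hΨ hΦ F M hF hM =>
      closeness μ B hg hΔ0 (hgap l) (hE0 l) hδ hΨ hΦ hF hM)
    (fun m => W504.YT.volume hN hD hg hK hc hgK hr m)
    {a : ℝ | 0 ≤ a ∧ 128 * ((D : ℝ) - 1) * Real.exp a < g ^ 4 * K ^ 2} (W504.YT.kap D g K)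
    (fun a ha Λ Λ' F F' c c' R hF hF' hc0 hc0' hcc hcc' hdis =>
      W504.YT.clustering hN hD hg hK hc hgK hr ha.1 ha.2 Λ Λ' F F' c c' R hF hF' hc0 hc0' hcc
        hcc' hdis)
    (fun l _ M c ε hε => poincare μ B hg hΔ0 (hgap l) (hE0 l) M c hε)
  have hkin : ∀ m, ∃ C, W504.YT.KinP D B μ g m C := fun m =>
    W504.YT.kin hN hD hg hK hc hgK hr m
  obtain ⟨H, e1, e2, e3, e4⟩ := W504.YT.hamiltonian (μ := μ) (ν := ν) hΔ0.le h1 hkin h2
  refine ⟨ν, hν, h1, fun ν' hν' h' => W504.YT.lim_unique h1 h' fun l _ δ hδ => ?_,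
    ⟨H, e1, e2, e3, W504.YT.ker_const hΔ0 e2 e4, e4⟩,
    fun Λ F hF ε hε => W504.YT.energy_limit hΔ0 (fun l _ F hF => hE0 l F hF) h1 Λ F hF ε hε,
    fun a ha haK => h3 a ⟨ha, haK⟩,
    fun γ => W504.YT.map_inv (gaugeZ_cont γ) fun Λ F hF => h4 Λ F hF γ,
    fun y => W504.YT.map_inv (transl_cont y) fun Λ F hF => h5 Λ F hF y⟩
  obtain ⟨Ψ, _, hΨ⟩ := W504.YT.low_inv (μ := μ) (B := B) (g := g) (D := D) (l := l) hδ
  exact ⟨Ψ, hΨ⟩

end

end Pool.Agent.W504.YT.Core
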